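import Mathlib
import Pool.Agent.Lib_helper57.MinHomeo.Defs

/-!
# Homeomorphisms of even dimensional Euclidean spaces with all full orbits dense

Definitions and the statements of the modules (each `*_Stmt` is a proposition proved in its own
file).  The proof text is `/team-store/MP_a7e2a1_even_proof.md`.
-/

open Set Metric Topology

namespace Pool.Agent.EvenHomeo

open Pool.Agent.MinHomeo (RotChart)

/-! ## The abstract scheme -/

section Abstract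

variable {M : Type} [MetricSpace M]

/-- The pair `s' = (f', W')` is an `ε`-refinement of the pair `s = (f, W)`. -/
def Fine (ε : ℝ) (s' s : (M ≃ₜ M) × Set M) : Prop :=
  s'.2 ⊆ s.2 ∧ (∀ x, s'.1 x ∈ s'.2 → s.1 x ∈ s.2) ∧
  (∀ x, s.1 x ∉ s.2 → dist (s'.1 x) (s.1 x) < ε) ∧
  (∀ x, x ∉ s.2 → dist (s'.1.symm x) (s.1.symm x) < ε)

/-- Each point outside `W ∩ f⁻¹ W` hits `U` forward before entering `W` (at a positive time) or
backward before entering `W` (at a time `≤ 0`), in at most `N` steps. -/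
def Hits (f : M ≃ₜ M) (W U : Set M) (N : ℕ) : Prop :=
  ∀ x, ¬ (x ∈ W ∧ f x ∈ W) →
    (∃ a ≤ N, (⇑f)^[a] x ∈ U ∧ ∀ j < a, f ((⇑f)^[j] x) ∉ W) ∨
    (∃ a ≤ N, (⇑f.symm)^[a] x ∈ U ∧ ∀ j < a, (⇑f.symm)^[j] x ∉ W)

/-- Property A for a class `S` of pairs `(f, W)`. -/
def PropA (S : Set ((M ≃ₜ M) × Set M)) : Prop :=
  ∀ s ∈ S, ∀ U : Set M, IsOpen U → U.Nonempty → ∀ ε : ℝ, 0 < ε →
    ∃ s' ∈ S, ∃ N : ℕ, Fine ε s' s ∧ Hits s'.1 s'.2 U N

/-- Property B for a class `S` of pairs `(f, W)`. -/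
def PropB (S : Set ((M ≃ₜ M) × Set M)) (e : M) : Prop :=
  ∀ s ∈ S, ∀ ε η : ℝ, 0 < ε → 0 < η →
    ∃ s' ∈ S, Fine ε s' s ∧ s'.2 ⊆ ball e η ∧ ∀ x, s'.1 x ∈ s'.2 → x ∈ ball e η

end Abstract

/-- SCHEME: the limit homeomorphism. -/
def Scheme_Stmt : Prop :=
  ∀ (M : Type) [MetricSpace M] [CompactSpace M] (e : M) (S : Set ((M ≃ₜ M) × Set M)),
    S.Nonempty → (∀ s ∈ S, IsClosed s.2 ∧ s.2 ∈ 𝓝 e ∧ s.1 e = e) → PropA S → PropB S e →
    ∃ f : M ≃ₜ M, f e = e ∧ ∀ x, x ≠ e → ∀ U : Set M, IsOpen U → U.Nonempty →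
      ∃ k : ℕ, (⇑f)^[k] x ∈ U ∨ (⇑f.symm)^[k] x ∈ U

/-! ## The twist -/

/-- The circle `ℝ / ℤ`. -/
abbrev T : Type := UnitAddCircle

/-- The centred representative modulo `1`. -/
noncomputable def cr (x : ℝ) : ℝ := x - round x

/-- The twist of width `w`, a real number in `[0, 1]`. -/
noncomputable def tw (w x : ℝ) : ℝ := (1 + max (-1) (min 1 (cr x / w))) / 2

/-- The twist as an element of the circle: on the slice of height `r` it has width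
`min lam r`. -/
noncomputable def D (lam r θ : ℝ) : T := if r ≤ 0 then 0 else ((tw (min lam r) θ : ℝ) : T)

/-- The distance function to the frozen disc, in crossing coordinates. -/
noncomputable def ee (r θ : ℝ) (υ : T) : ℝ := max |cr θ| (max (-r) (min ‖υ‖ r))

/-! ## The base -/

/-- The base space: a space with a free circle action (`RotChart`), and a chart `β` with
coordinates `(y, s, θ)`, `s` and `θ` modulo `1`. -/
structure Base (X : Type) [NormedAddCommGroup X] [NormedSpace ℝ X] (Y B : Type) [MetricSpace Y]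
    [MetricSpace B] extends RotChart X B where
  β : Y × ℝ × ℝ → B
  β_cont : Continuous β
  β_open : IsOpenMap β
  β_eq : ∀ y s θ y' s' θ', β (y, s, θ) = β (y', s', θ') ↔
    y = y' ∧ (∃ k : ℤ, s' = s + k) ∧ ∃ k : ℤ, θ' = θ + k
  R_β : ∀ t y s θ, R t (β (y, s, θ)) = β (y, s, θ + t)
  β_dense : Dense (range β)
  ρ : Y → ℝ
  ρ_cont : Continuous ρ
  ρ_cpt : IsCompact {y | -(1 / 20) ≤ ρ y}
  Y_conn : IsPreconnected (univ : Set Y)

variable {X : Type} [NormedAddCommGroup X] [NormedSpace ℝ X] {Y B : Type} [MetricSpace Y]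
  [MetricSpace B]

namespace Base

variable (b : Base X Y B)

/-- The frozen set in coordinates: the poles (`ρ = 0`) with all `υ`, and the disc `υ = 0`. -/
def E : Set (B × T) := {p | ∃ y, 0 ≤ b.ρ y ∧ p.1 = b.β (y, 0, 0) ∧ (b.ρ y = 0 ∨ p.2 = 0)}

/-- The sheet on which the coordinates are discontinuous. -/
def Sheet (lam : ℝ) : Set B :=
  {z | ∃ y θ, 0 ≤ b.ρ y ∧ |cr θ| ≤ min lam (b.ρ y) ∧ z = b.β (y, 0, θ)}

/-- The coordinate map cut open along `s = 0`, with parameters `(y, s, θ, υ)`, `0 ≤ s ≤ 1`. -/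
noncomputable def cut {M : Type} (lam : ℝ) (h : B × T → M) (q : Y × ℝ × ℝ × T) : M :=
  h (b.β (q.1, q.2.1, q.2.2.1), q.2.2.2 + if q.2.1 < 1 then 0 else D lam (b.ρ q.1) q.2.2.1)

/-- The twist met by the line of slope `α` which starts in `z`, in the time interval `(0, 1]`. -/
noncomputable def cross (lam α : ℝ) (z : B) : T :=
  open Classical in
  if h : ∃ q : Y × ℝ × ℝ, (0 ≤ q.2.1 ∧ q.2.1 < 1) ∧ b.β q = z then
    D lam (b.ρ h.choose.1) (h.choose.2.2 + α * (1 - h.choose.2.1)) else 0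

/-- The unslowed map, a bijection of `B × T`. -/
noncomputable def L (lam α : ℝ) : B × T ≃ B × T where
  toFun p := (b.R α p.1, p.2 + b.cross lam α p.1)
  invFun p := (b.R (-α) p.1, p.2 - b.cross lam α (b.R (-α) p.1))
  left_inv p := by
    have h : b.R (-α) (b.R α p.1) = p.1 := by
      rw [← b.R_add, neg_add_cancel]
      have := b.R_add 0 1 p.1
      rw [zero_add, b.R_one] at this
      exact this.symm
    simp [h]
  right_inv p := by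
    have h : b.R α (b.R (-α) p.1) = p.1 := by
      rw [← b.R_add, add_neg_cancel]
      have := b.R_add 0 1 p.1
      rw [zero_add, b.R_one] at this
      exact this.symm
    simp [h]

/-- Line coordinates: the point at time `σ` on the line of slope `α` which crosses `s = 0` at
time `0` in the point with coordinates `(y, θ)`, with right coordinate `υ`. -/
noncomputable def ta (lam α : ℝ) (y : Y) (θ σ : ℝ) (υ : T) : B × T :=
  (b.β (y, σ, θ + α * σ), υ - if σ < 0 then D lam (b.ρ y) θ else 0)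

/-- The tube of radius `δ` and time interval `[a, c]`. -/
def tube (lam α δ a c : ℝ) : Set (B × T) :=
  {p | ∃ y θ σ υ, ee (b.ρ y) θ υ ≤ δ ∧ a ≤ σ ∧ σ ≤ c ∧ p = b.ta lam α y θ σ υ}

/-- The box `W` of a stage, in coordinates. -/
def Wt (lam α δ : ℝ) : Set (B × T) := b.tube lam α δ (-δ) (1 + δ)

/-- The preimage of the box of a stage, in coordinates. -/
def Wm (lam α δ : ℝ) : Set (B × T) := b.tube lam α δ (-1 - δ) δ

/-- The invariant slab of the classical step. -/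
def slab (p q : ℕ) (w : ℝ) : Set B :=
  {z | ∃ y s θ, z = b.β (y, s, θ) ∧ -(1 / 20) ≤ b.ρ y ∧ |cr (q * θ - p * s)| ≤ q * w}

end Base

/-! ## Coordinate systems on `M` -/

/-- A coordinate system of width `lam` on `M`: a surjective map `h : B × T → M` which collapses
exactly `E` to `e`, is continuous off the sheet and has the twist `D` as jump across `s = 0`. -/
structure Coord (b : Base X Y B) (lam : ℝ) (M : Type) [MetricSpace M] (e : M) where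
  h : B × T → M
  surj : Function.Surjective h
  hE : ∀ p, h p = e ↔ p ∈ b.E
  inj : ∀ p p', h p = h p' → p = p' ∨ h p = e
  kcont : ContinuousOn (b.cut lam h) {q | 0 ≤ q.2.1 ∧ q.2.1 ≤ 1}
  ocont : ∀ z υ, z ∉ b.β '' {q | 0 ≤ b.ρ q.1} → ContinuousAt h (z, υ)

section Stage

variable {b : Base X Y B} {lam : ℝ} {M : Type} [MetricSpace M] {e : M}

/-- The box `W` of a stage. -/
def Coord.W (C : Coord b lam M e) (α δ : ℝ) : Set M := C.h '' b.Wt lam α δ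

/-- `f` is a slowed map for the coordinate system `C`, the slope `α` and the size `δ`. -/
def IsFrozen (C : Coord b lam M e) (α δ : ℝ) (f : M ≃ₜ M) : Prop :=
  f e = e ∧
  (∀ p, p ∉ b.Wm lam α δ → f (C.h p) = C.h (b.L lam α p)) ∧
  (∀ p, p ∉ b.Wt lam α δ → f.symm (C.h p) = C.h ((b.L lam α).symm p)) ∧
  (∀ p, p ∈ b.Wm lam α δ → f (C.h p) ∈ C.h '' b.Wt lam α δ) ∧
  (∀ p, p ∈ b.Wt lam α δ → f.symm (C.h p) ∈ C.h '' b.Wm lam α δ)

/-- Modulus of continuity along the lines of slope `α`. -/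
def UC (C : Coord b lam M e) (α : ℝ) (n : ℕ) (ε : ℝ) : Prop :=
  ∀ y θ σ₁ σ₂ υ, -(1 / 20) ≤ b.ρ y → |σ₁| ≤ 3 / 4 → |σ₂| ≤ 3 / 4 → |σ₁ - σ₂| ≤ 1 / (n : ℝ) →
    dist (C.h (b.ta lam α y θ σ₁ υ)) (C.h (b.ta lam α y θ σ₂ υ)) < ε

/-- Modulus of continuity for small rotations. -/
def UR (C : Coord b lam M e) (κ ε : ℝ) : Prop :=
  ∀ z υ t (u : T), |t| ≤ κ → ‖u‖ ≤ κ → dist (C.h (b.R t z, υ + u)) (C.h (z, υ)) < ε

end Stage

/-- The class of stages. -/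
def Stages (b : Base X Y B) (M : Type) [MetricSpace M] (e : M) : Set ((M ≃ₜ M) × Set M) :=
  {s | ∃ (lam α δ : ℝ) (C : Coord b lam M e), 0 < lam ∧ lam ≤ 1 / 20 ∧ 1 / 5 < α ∧ α < 1 / 3 ∧
    0 < δ ∧ δ ≤ 1 / 20 ∧ IsFrozen C α δ s.1 ∧ s.2 = C.W α δ}

/-! ## The module statements -/

/-- FROZEN: existence of slowed maps. -/
def Frozen_Stmt (b : Base X Y B) (M : Type) [MetricSpace M] (e : M) : Prop :=
  ∀ (lam α δ : ℝ) (C : Coord b lam M e), 0 < lam → lam ≤ 1 / 20 → 1 / 5 < α → α < 1 / 3 →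
    0 < δ → δ ≤ 1 / 20 → ∃ f : M ≃ₜ M, IsFrozen C α δ f

/-- NHD: the box is a closed neighbourhood of `e`. -/
def Nhd_Stmt (b : Base X Y B) (M : Type) [MetricSpace M] (e : M) : Prop :=
  ∀ (lam α δ : ℝ) (C : Coord b lam M e), 0 < lam → lam ≤ 1 / 20 → 1 / 5 < α → α < 1 / 3 →
    0 < δ → δ ≤ 1 / 20 → IsClosed (C.W α δ) ∧ C.W α δ ∈ 𝓝 e

/-- UCEX -/
def UCex_Stmt (b : Base X Y B) (M : Type) [MetricSpace M] (e : M) : Prop :=
  ∀ (lam : ℝ) (C : Coord b lam M e) (ε : ℝ), 0 < lam → lam ≤ 1 / 20 → 0 < ε →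
    ∃ n : ℕ, 4 ≤ n ∧ ∀ α, 0 ≤ α → α ≤ 1 → UC C α n ε

/-- UREX -/
def URex_Stmt (b : Base X Y B) (M : Type) [MetricSpace M] (e : M) : Prop :=
  ∀ (lam : ℝ) (C : Coord b lam M e) (ε : ℝ), 0 < lam → lam ≤ 1 / 20 → 0 < ε →
    ∃ κ : ℝ, 0 < κ ∧ UR C κ ε

/-- SMALL: thin short tubes have small image. -/
def Small_Stmt (b : Base X Y B) (M : Type) [MetricSpace M] (e : M) : Prop :=
  ∀ (lam : ℝ) (C : Coord b lam M e) (η : ℝ), 0 < lam → lam ≤ 1 / 20 → 0 < η →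
    ∃ η₁ : ℝ, 0 < η₁ ∧ ∀ α, 0 ≤ α → α ≤ 1 → ∀ p ∈ b.tube lam α η₁ (-η₁) η₁, dist (C.h p) e < η

/-- OFF: coordinate systems are continuous off the sheet. -/
def Off_Stmt (b : Base X Y B) (M : Type) [MetricSpace M] (e : M) : Prop :=
  ∀ (lam : ℝ) (C : Coord b lam M e), 0 < lam → lam ≤ 1 / 20 →
    ∀ z υ, z ∉ b.Sheet lam → ContinuousAt C.h (z, υ)

/-- COMP: composition of a coordinate system with a homeomorphism which is the identity near the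
sheet. -/
def Comp_Stmt (b : Base X Y B) (M : Type) [MetricSpace M] (e : M) : Prop :=
  ∀ (lam : ℝ) (C : Coord b lam M e) (A : B × T ≃ₜ B × T) (O : Set B), 0 < lam → lam ≤ 1 / 20 →
    IsOpen O → b.Sheet lam ⊆ O → (∀ p : B × T, p.1 ∈ O → A p = p) →
    ∃ C' : Coord b lam M e, ∀ p, C'.h p = C.h (A p)

/-- COH: the cohomological equation of the thinning step. -/
def Coh_Stmt : Prop :=
  ∀ (lam lam' : ℝ) (p q : ℕ), 0 < lam' → lam' ≤ lam → lam ≤ 1 / 20 → 1 ≤ q → Nat.Coprime p q →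
    ∃ v j : ℝ → ℝ → ℝ, Continuous (fun x : ℝ × ℝ => v x.1 x.2) ∧
      Continuous (fun x : ℝ × ℝ => j x.1 x.2) ∧
      (∀ r θ, |v r θ| ≤ 1 / (q : ℝ)) ∧
      (∀ r θ, v r (θ + 1) = v r θ) ∧ (∀ r θ, v r (θ + (p : ℝ) / q) = v r θ) ∧
      (∀ r θ, j r (θ + 1) = j r θ) ∧
      (∀ r θ, r ≤ lam' → v r θ = 0 ∧ j r θ = 0) ∧
      (∀ r θ, |cr θ| ≤ 1 / (8 * (q : ℝ)) → j r θ = 0) ∧
      ∀ r θ, D lam' r (θ + (p : ℝ) / q) + ((j r (θ + (p : ℝ) / q) : ℝ) : T) =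
        D lam r (θ + (p : ℝ) / q) + ((j r θ + v r θ : ℝ) : T)

/-- THIN: the thinning step. -/
def Thin_Stmt (b : Base X Y B) (M : Type) [MetricSpace M] (e : M) : Prop :=
  ∀ (lam α δ : ℝ) (C : Coord b lam M e) (f : M ≃ₜ M), 0 < lam → lam ≤ 1 / 20 → 1 / 5 < α →
    α < 1 / 3 → 0 < δ → δ ≤ 1 / 20 → IsFrozen C α δ f → ∀ (ε : ℝ) (q₀ : ℕ), 0 < ε →
    ∃ p q : ℕ, Nat.Coprime p q ∧ q₀ ≤ q ∧ 1 / 5 < (p : ℝ) / q ∧ (p : ℝ) / q < 1 / 3 ∧
      ∃ lam₀ : ℝ, 0 < lam₀ ∧ ∀ lam' : ℝ, 0 < lam' → lam' < lam₀ →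
        ∃ C' : Coord b lam' M e, (∃ j : B → T, ∀ z υ, C'.h (z, υ) = C.h (z, υ + j z)) ∧
          (∀ (n : ℕ) (ε' : ℝ), 4 ≤ n → UC C ((p : ℝ) / q) n ε' →
            UC C' ((p : ℝ) / q) n (ε' + ε)) ∧
          ∃ δ₀ : ℝ, 0 < δ₀ ∧ ∀ (δ' : ℝ) (f' : M ≃ₜ M), 0 < δ' → δ' < δ₀ →
            IsFrozen C' ((p : ℝ) / q) δ' f' →
            Fine ε (f', C'.W ((p : ℝ) / q) δ') (f, C.W α δ)

/-- DRIFT: hitting by drift. -/
def Drift_Stmt (b : Base X Y B) : Prop :=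
  ∀ (lam : ℝ) (p q : ℕ) (V : Set (B × T)), 0 < lam → lam ≤ 1 / 20 → 8 * (q : ℝ) * lam < 1 →
    1 ≤ q → Nat.Coprime p q → 1 / 5 < (p : ℝ) / q → (p : ℝ) / q < 1 / 3 → IsOpen V →
    (∀ x ∈ V, x.1 ∉ b.slab p q (2 * lam)) → (∀ z υ, ∃ t, (b.R t z, υ) ∈ V) →
    ∃ κ : ℝ, 0 < κ ∧ ∀ α : ℝ, α ≠ (p : ℝ) / q → |α - (p : ℝ) / q| < κ →
      ∃ N : ℕ, ∀ x, (∃ a ≤ N, (⇑(b.L lam α))^[a] x ∈ V) ∧
        ∃ a ≤ N, (⇑(b.L lam α).symm)^[a] x ∈ V

/-- AK: the classical step. -/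
def AK_Stmt (b : Base X Y B) (M : Type) [MetricSpace M] (e : M) : Prop :=
  ∀ (lam δ : ℝ) (C : Coord b lam M e) (f : M ≃ₜ M) (p q : ℕ), 0 < lam → lam ≤ 1 / 20 →
    8 * (q : ℝ) * lam < 1 → 1 ≤ q → Nat.Coprime p q → 1 / 5 < (p : ℝ) / q →
    (p : ℝ) / q < 1 / 3 → 0 < δ → δ ≤ 1 / 20 → IsFrozen C ((p : ℝ) / q) δ f →
    ∀ (U : Set M) (V : Set (B × T)) (ε : ℝ), IsOpen V → V.Nonempty → (∀ x ∈ V, C.h x ∈ U) →
    (∀ x ∈ V, x.1 ∉ b.slab p q (2 * lam)) → 0 < ε →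
    ∃ (C' : Coord b lam M e) (α' δ' : ℝ) (f' : M ≃ₜ M) (N : ℕ), 1 / 5 < α' ∧ α' < 1 / 3 ∧
      0 < δ' ∧ δ' ≤ 1 / 20 ∧ IsFrozen C' α' δ' f' ∧
      Fine ε (f', C'.W α' δ') (f, C.W ((p : ℝ) / q) δ) ∧ Hits f' (C'.W α' δ') U N

/-- FREEZE: the freezing step. -/
def Freeze_Stmt (b : Base X Y B) (M : Type) [MetricSpace M] (e : M) : Prop :=
  ∀ (lam δ : ℝ) (C : Coord b lam M e) (f : M ≃ₜ M) (p q n : ℕ) (ε η : ℝ), 0 < lam →
    lam ≤ 1 / 20 → 8 * (q : ℝ) * lam < 1 → Nat.Coprime p q → 1 / 5 < (p : ℝ) / q →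
    (p : ℝ) / q < 1 / 3 → 0 < δ → δ ≤ 1 / 20 → IsFrozen C ((p : ℝ) / q) δ f → 4 ≤ n →
    2 * n + 6 < q → UC C ((p : ℝ) / q) n ε → 0 < ε → 0 < η →
    ∃ (C' : Coord b lam M e) (δ' : ℝ) (f' : M ≃ₜ M), 0 < δ' ∧ δ' ≤ 1 / 20 ∧
      IsFrozen C' ((p : ℝ) / q) δ' f' ∧
      Fine ε (f', C'.W ((p : ℝ) / q) δ') (f, C.W ((p : ℝ) / q) δ) ∧
      C'.W ((p : ℝ) / q) δ' ⊆ ball e η ∧ ∀ x, f' x ∈ C'.W ((p : ℝ) / q) δ' → x ∈ ball e η

/-- HITREL: a homeomorphism of `B × T` supported off `Z × T`, commuting with `R (1/q) × id`,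
which makes every circle visit `V`. -/
def HitRel_Stmt (C : RotChart X B) : Prop :=
  ∀ (q : ℕ) (Z : Set B) (V : Set (B × T)), 1 ≤ q → IsClosed Z →
    (∀ z, C.R (1 / (q : ℝ)) z ∈ Z ↔ z ∈ Z) → IsPreconnected Zᶜ → (∀ z, ∃ t, C.R t z ∉ Z) →
    IsOpen V → V.Nonempty → (∀ x ∈ V, x.1 ∉ Z) →
    ∃ (A : B × T ≃ₜ B × T) (O : Set B), IsOpen O ∧ Z ⊆ O ∧ (∀ x : B × T, x.1 ∈ O → A x = x) ∧
      (∀ z υ, A (C.R (1 / (q : ℝ)) z, υ) = (C.R (1 / (q : ℝ)) (A (z, υ)).1, (A (z, υ)).2)) ∧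
      ∀ z υ, ∃ t, A (C.R t z, υ) ∈ V

/-- TRANSPORT: transport of a compactly supported bijection through an open embedding of an open
set. -/
def Transport_Stmt : Prop :=
  ∀ (A Z : Type) [TopologicalSpace A] [TopologicalSpace Z] [T2Space Z] [CompactSpace Z]
    (g : A → Z) (S K : Set A) (τ : A → A), IsOpen S → IsOpenMap g → ContinuousOn g S →
    InjOn g S → IsCompact K → K ⊆ S → Continuous τ → Function.Bijective τ →
    (∀ x, x ∉ K → τ x = x) →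
    ∃ G : Z ≃ₜ Z, (∀ x ∈ S, G (g x) = g (τ x)) ∧ ∀ z, z ∉ g '' K → G z = z

/-- SPACE: the base and the initial coordinate system. -/
def Space_Stmt : Prop :=
  ∀ k : ℕ, ∃ (X Y B M : Type) (_ : NormedAddCommGroup X) (_ : NormedSpace ℝ X)
    (_ : MetricSpace Y) (_ : MetricSpace B) (_ : MetricSpace M) (e : M) (b : Base X Y B)
    (_ : Coord b (1 / 20) M e), FiniteDimensional ℝ X ∧ CompactSpace B ∧ CompactSpace M ∧
      Nonempty ({x : M // x ≠ e} ≃ₜ EuclideanSpace ℝ (Fin (2 * k + 4)))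

end Pool.Agent.EvenHomeo
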