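import Pool.Agent.Lib_helper30.EvenHomeo.Calc

/-!
# Intermediate statements (second level modules)
-/

open Set Metric Topology

namespace Pool.Agent.EvenHomeo

open Pool.Agent.MinHomeo (RotChart)

variable {X : Type} [NormedAddCommGroup X] [NormedSpace ℝ X] {Y B : Type} [MetricSpace Y]
  [MetricSpace B]

/-- SHIFT: the new coordinate system of the thinning step and its relations with the old one. -/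
def Shift_Stmt (b : Base X Y B) (M : Type) [MetricSpace M] (e : M) : Prop :=
  ∀ (lam lam' : ℝ) (C : Coord b lam M e) (p q : ℕ), 0 < lam' → lam' ≤ lam → lam ≤ 1 / 20 →
    1 ≤ q → Nat.Coprime p q → 1 / 5 < (p : ℝ) / q → (p : ℝ) / q < 1 / 3 →
    ∃ (C' : Coord b lam' M e) (j : B → T) (v j₀ : ℝ → ℝ → ℝ),
      (∀ r θ, |v r θ| ≤ 1 / (q : ℝ)) ∧
      (∀ z υ, C'.h (z, υ) = C.h (z, υ + j z)) ∧
      (∀ z, z ∉ range b.β → j z = 0) ∧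
      (∀ y θ σ υ, -1 ≤ σ → σ < 1 → C'.h (b.ta lam' ((p : ℝ) / q) y θ σ υ) =
        C.h (b.ta lam ((p : ℝ) / q) y θ σ
          (υ + ((j₀ (b.ρ y) θ + σ * v (b.ρ y) θ : ℝ) : T)))) ∧
      (∀ y θ σ υ, |cr θ| ≤ 1 / (8 * (q : ℝ)) → -2 ≤ σ → σ < 2 →
        C'.h (b.ta lam' ((p : ℝ) / q) y θ σ υ) =
          C.h (b.ta lam ((p : ℝ) / q) y θ σ (υ + ((σ * v (b.ρ y) θ : ℝ) : T)))) ∧
      (∀ y s θ υ, 0 ≤ s → s < 1 → C'.h (b.L lam' ((p : ℝ) / q) (b.β (y, s, θ), υ)) =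
        C.h (b.β (y, s, θ + (p : ℝ) / q), υ + j (b.β (y, s, θ)) +
          D lam (b.ρ y) (θ + (p : ℝ) / q * (1 - s)) +
          ((v (b.ρ y) (θ + (p : ℝ) / q * (1 - s)) : ℝ) : T))) ∧
      (∀ y s θ υ, 0 ≤ s → s < 1 → C'.h ((b.L lam' ((p : ℝ) / q)).symm (b.β (y, s, θ), υ)) =
        C.h (b.β (y, s, θ - (p : ℝ) / q), υ + j (b.β (y, s, θ)) -
          D lam (b.ρ y) (θ - (p : ℝ) / q * s) -
          ((v (b.ρ y) (θ - (p : ℝ) / q * s) : ℝ) : T)))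

/-- AKFINE: the classical step is fine. -/
def AKFine_Stmt (b : Base X Y B) (M : Type) [MetricSpace M] (e : M) : Prop :=
  ∀ (lam δ : ℝ) (C C' : Coord b lam M e) (f : M ≃ₜ M) (p q : ℕ) (A : B × T ≃ₜ B × T)
    (O : Set B) (ε : ℝ), 0 < lam → lam ≤ 1 / 20 → 8 * (q : ℝ) * lam < 1 → 1 ≤ q →
    Nat.Coprime p q → 1 / 5 < (p : ℝ) / q → (p : ℝ) / q < 1 / 3 → 0 < δ → δ ≤ 1 / 20 →
    IsFrozen C ((p : ℝ) / q) δ f → IsOpen O → b.slab p q (2 * lam) ⊆ O →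
    (∀ x : B × T, x.1 ∈ O → A x = x) →
    (∀ z υ, A (b.R (1 / (q : ℝ)) z, υ) = (b.R (1 / (q : ℝ)) (A (z, υ)).1, (A (z, υ)).2)) →
    (∀ x, C'.h x = C.h (A x)) → 0 < ε →
    ∃ κ : ℝ, 0 < κ ∧ ∀ (α' δ' : ℝ) (f' : M ≃ₜ M), |α' - (p : ℝ) / q| < κ → 0 < δ' → δ' < κ →
      IsFrozen C' α' δ' f' → Fine ε (f', C'.W α' δ') (f, C.W ((p : ℝ) / q) δ)

/-- AKHITS: hitting for the slowed map from hitting for the map `L`. -/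
def AKHits_Stmt (b : Base X Y B) (M : Type) [MetricSpace M] (e : M) : Prop :=
  ∀ (lam α δ : ℝ) (C : Coord b lam M e) (f : M ≃ₜ M) (N : ℕ) (V : Set (B × T)) (U : Set M),
    0 < lam → lam ≤ 1 / 20 → 1 / 5 < α → α < 1 / 3 → 0 < δ → δ ≤ 1 / 20 → IsFrozen C α δ f →
    (∀ j : ℕ, 1 ≤ j → j ≤ 2 * N + 2 → 2 * δ < |cr (α * j)|) → (∀ x ∈ V, C.h x ∈ U) →
    (∀ x, (∃ a ≤ N, (⇑(b.L lam α))^[a] x ∈ V) ∧ ∃ a ≤ N, (⇑(b.L lam α).symm)^[a] x ∈ V) →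
    Hits f (C.W α δ) U N

/-- Properties of the push along the lines: `κ χ σ` is the new time of the point with time `σ`. -/
structure PushProps (n : ℕ) (c η₁ : ℝ) (κ : ℝ → ℝ → ℝ) : Prop where
  cont : Continuous fun x : ℝ × ℝ => κ x.1 x.2
  mono : ∀ χ, 0 ≤ χ → χ ≤ 1 → StrictMono (κ χ)
  zero : ∀ σ, κ 0 σ = σ
  near : ∀ χ σ, 0 ≤ χ → χ ≤ 1 → |σ| ≤ c → κ χ σ = σ
  far : ∀ χ σ, 0 ≤ χ → χ ≤ 1 → (n : ℝ) + c ≤ |σ| → κ χ σ = σ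
  fix : ∀ χ, 0 ≤ χ → χ ≤ 1 → κ χ (1 + c) = 1 + c
  fix' : ∀ χ, 0 ≤ χ → χ ≤ 1 → κ χ (-1 - c) = -1 - c
  step : ∀ χ u, 0 ≤ χ → χ ≤ 1 → (u ≤ -1 - c ∨ c ≤ u) → |κ χ (u + 1) - κ χ u - 1| ≤ 1 / (n : ℝ)
  small : ∀ u, |u| ≤ 1 + c / 2 → |κ 1 u| ≤ η₁

/-- PUSH: existence of the push. -/
def Push_Stmt : Prop :=
  ∀ (n : ℕ) (c η₁ : ℝ), 1 ≤ n → 0 < η₁ → η₁ < 1 → 0 < c → c ≤ η₁ / 2 → ∃ κ, PushProps n c η₁ κ

/-- The cut off function of the push. -/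
noncomputable def chi (δ₁ x : ℝ) : ℝ := max 0 (min 1 (2 - 2 * x / δ₁))

/-- KMAP: the push on `B × T`. -/
def KMap_Stmt (b : Base X Y B) : Prop :=
  ∀ (lam : ℝ) (p q n : ℕ) (c η₁ δ₁ : ℝ) (κ : ℝ → ℝ → ℝ), 0 < lam → lam ≤ 1 / 20 →
    1 ≤ q → Nat.Coprime p q → 1 / 5 < (p : ℝ) / q → (p : ℝ) / q < 1 / 3 → 1 ≤ n →
    2 * n + 6 < q → 0 < c → c < 1 → PushProps n c η₁ κ → 0 < δ₁ → δ₁ ≤ 1 / 20 →
    lam + 2 * δ₁ < 1 / (q : ℝ) →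
    ∃ (K : B × T ≃ₜ B × T) (O : Set B), IsOpen O ∧ b.Sheet lam ⊆ O ∧
      (∀ x : B × T, x.1 ∈ O → K x = x) ∧
      (∀ y θ σ υ, ee (b.ρ y) θ υ ≤ δ₁ → |σ| ≤ (n : ℝ) + 2 →
        K (b.ta lam ((p : ℝ) / q) y θ σ υ) =
          b.ta lam ((p : ℝ) / q) y θ (κ (chi δ₁ (ee (b.ρ y) θ υ)) σ) υ) ∧
      ∀ x, x ∉ b.tube lam ((p : ℝ) / q) δ₁ (-((n : ℝ) + 1)) ((n : ℝ) + 1) → K x = x

end Pool.Agent.EvenHomeo
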