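import Pool.Agent.Lib_helper30.EvenHomeo.Slab
import Pool.Agent.Lib_helper30.EvenHomeo.Defs2

/-!
# ASSEMBLY: properties A and B for the class of stages
-/

open Set Metric Topology

namespace Pool.Agent.EvenHomeo

variable {X : Type} [NormedAddCommGroup X] [NormedSpace ℝ X] {Y B : Type} [MetricSpace Y]
  [MetricSpace B] {M : Type} [MetricSpace M]

theorem Fine.trans {ε₁ ε₂ : ℝ} {s s' s'' : (M ≃ₜ M) × Set M} (h₂ : Fine ε₂ s'' s')
    (h₁ : Fine ε₁ s' s) : Fine (ε₁ + ε₂) s'' s := by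
  obtain ⟨a1, a2, a3, a4⟩ := h₁
  obtain ⟨b1, b2, b3, b4⟩ := h₂
  refine ⟨b1.trans a1, fun x hx => a2 x (b2 x hx), fun x hx => ?_, fun x hx => ?_⟩
  · have h1 := a3 x hx
    have h2 := b3 x fun h => hx (a2 x h)
    calc dist (s''.1 x) (s.1 x) ≤ dist (s''.1 x) (s'.1 x) + dist (s'.1 x) (s.1 x) :=
          dist_triangle _ _ _
      _ < ε₁ + ε₂ := by linarith
  · have h1 := a4 x hx
    have h2 := b4 x fun h => hx (a1 h)
    calc dist (s''.1.symm x) (s.1.symm x)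
        ≤ dist (s''.1.symm x) (s'.1.symm x) + dist (s'.1.symm x) (s.1.symm x) :=
          dist_triangle _ _ _
      _ < ε₁ + ε₂ := by linarith

theorem Fine.mono {ε₁ ε₂ : ℝ} {s s' : (M ≃ₜ M) × Set M} (h : Fine ε₁ s' s) (hε : ε₁ ≤ ε₂) :
    Fine ε₂ s' s :=
  ⟨h.1, h.2.1, fun x hx => (h.2.2.1 x hx).trans_le hε, fun x hx => (h.2.2.2 x hx).trans_le hε⟩

theorem propB_stages (b : Base X Y B) (e : M) (hUC : UCex_Stmt b M e) (hThin : Thin_Stmt b M e)
    (hFr : Frozen_Stmt b M e) (hFz : Freeze_Stmt b M e) : PropB (Stages b M e) e := by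
  rintro ⟨f, W⟩ ⟨lam, α, δ, C, hlam, hlam', hα, hα', hδ, hδ', hf, hW⟩ ε η hε hη
  simp only at hf hW
  subst hW
  obtain ⟨n, hn, hUCn⟩ := hUC lam C (ε / 4) hlam hlam' (by linarith)
  obtain ⟨p, q, hpq, hq, hpq1, hpq2, lam₀, hlam₀, hT⟩ :=
    hThin lam α δ C f hlam hlam' hα hα' hδ hδ' hf (ε / 4) (2 * n + 7) (by linarith)
  have hq0 : (0 : ℝ) < q := by
    have : 0 < q := by omega
    exact_mod_cast this
  set lam' := min (lam₀ / 2) (min (1 / 20) (1 / (16 * q))) with hlam'def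
  have hl1 : 0 < lam' := by
    rw [hlam'def]
    positivity
  have hl2 : lam' < lam₀ := (min_le_left _ _).trans_lt (by linarith)
  have hl3 : lam' ≤ 1 / 20 := (min_le_right _ _).trans (min_le_left _ _)
  have hl4 : 8 * (q : ℝ) * lam' < 1 := by
    have : lam' ≤ 1 / (16 * q) := (min_le_right _ _).trans (min_le_right _ _)
    calc 8 * (q : ℝ) * lam' ≤ 8 * (q : ℝ) * (1 / (16 * q)) := by gcongr
      _ < 1 := by
        field_simp
        norm_num
  obtain ⟨C', -, hUC', δ₀, hδ₀, hF⟩ := hT lam' hl1 hl2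
  have hUC1 := hUC' n (ε / 4) hn (hUCn _ (by linarith) (by linarith))
  set δ' := min (δ₀ / 2) (1 / 20) with hδ'def
  have hd1 : 0 < δ' := by
    rw [hδ'def]
    positivity
  have hd2 : δ' < δ₀ := (min_le_left _ _).trans_lt (by linarith)
  obtain ⟨f', hf'⟩ := hFr lam' (p / q) δ' C' hl1 hl3 hpq1 hpq2 hd1 (min_le_right _ _)
  have hfine1 := hF δ' f' hd1 hd2 hf'
  obtain ⟨C'', δ'', f'', hd3, hd4, hf'', hfine2, hsm1, hsm2⟩ :=
    hFz lam' δ' C' f' p q n (ε / 4 + ε / 4) η hl1 hl3 hl4 hpq hpq1 hpq2 hd1 (min_le_right _ _) hf' hn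
      (by omega) hUC1 (by linarith) hη
  refine ⟨(f'', C''.W (p / q) δ''), ⟨lam', p / q, δ'', C'', hl1, hl3, hpq1, hpq2, hd3, hd4, hf'',
    rfl⟩, ?_, hsm1, hsm2⟩
  exact (hfine2.trans hfine1).mono (by linarith)

/-- a point of a nonempty open set which is given by coordinates off the sheet -/
theorem exists_coord_off_sheet (b : Base X Y B) {e : M} {lam : ℝ} (C : Coord b lam M e)
    {U : Set M} (hU : IsOpen U) (hne : U.Nonempty) :
    ∃ z υ, z ∉ b.Sheet lam ∧ C.h (z, υ) ∈ U := by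
  obtain ⟨x, hx⟩ := hne
  obtain ⟨⟨z, υ⟩, rfl⟩ := C.surj x
  by_cases hz : z ∈ b.Sheet lam
  swap
  · exact ⟨z, υ, hz, hx⟩
  obtain ⟨y, θ, h1, h2, rfl⟩ := hz
  have h3 := C.kcont (y, (0 : ℝ), θ, υ) ⟨le_rfl, zero_le_one⟩
  have h4 : b.cut lam C.h (y, (0 : ℝ), θ, υ) = C.h (b.β (y, 0, θ), υ) := by
    unfold Base.cut
    simp
  have h5 : Filter.Tendsto (fun s : ℝ => (y, s, θ, υ)) (𝓝[>] 0)
      (𝓝[{q : Y × ℝ × ℝ × T | 0 ≤ q.2.1 ∧ q.2.1 ≤ 1}] (y, (0 : ℝ), θ, υ)) := by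
    rw [tendsto_nhdsWithin_iff]
    constructor
    · have : Continuous fun s : ℝ => (y, s, θ, υ) := by fun_prop
      exact (this.tendsto 0).mono_left nhdsWithin_le_nhds
    · have : Ioo (0 : ℝ) 1 ∈ 𝓝[>] (0 : ℝ) := Ioo_mem_nhdsGT one_pos
      filter_upwards [this] with s hs
      exact ⟨hs.1.le, hs.2.le⟩
  have h6 : ∀ᶠ s : ℝ in 𝓝[>] 0, b.cut lam C.h (y, s, θ, υ) ∈ U := by
    have h7 := h3.tendsto.comp h5
    rw [h4] at h7
    exact h7.eventually (hU.mem_nhds hx)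
  have h7 : Ioo (0 : ℝ) 1 ∈ 𝓝[>] (0 : ℝ) := Ioo_mem_nhdsGT one_pos
  obtain ⟨s, hs, hs'⟩ := (h6.and h7).exists
  refine ⟨b.β (y, s, θ), υ, ?_, ?_⟩
  · rintro ⟨y', θ', -, -, h8⟩
    obtain ⟨-, ⟨k, hk⟩, -⟩ := (b.β_eq _ _ _ _ _ _).1 h8
    have h9 : ((-k : ℤ) : ℝ) = s := by
      push_cast
      linarith
    have h10 : (0 : ℝ) < ((-k : ℤ) : ℝ) := by rw [h9]; exact hs'.1
    have h11 : ((-k : ℤ) : ℝ) < 1 := by rw [h9]; exact hs'.2
    have h12 : 0 < -k := by exact_mod_cast h10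
    have h13 : -k < 1 := by exact_mod_cast h11
    omega
  · unfold Base.cut at hs
    simpa [hs'.2] using hs

theorem propA_stages (b : Base X Y B) (e : M) (hOff : Off_Stmt b M e) (hThin : Thin_Stmt b M e)
    (hFr : Frozen_Stmt b M e) (hAK : AK_Stmt b M e) : PropA (Stages b M e) := by
  rintro ⟨f, W⟩ ⟨lam, α, δ, C, hlam, hlam', hα, hα', hδ, hδ', hf, hW⟩ U hU hUne ε hε
  simp only at hf hW
  subst hW
  obtain ⟨z₁, υ₁, hz₁, hx₁⟩ := exists_coord_off_sheet b C hU hUne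
  obtain ⟨p, q, hpq, hq, hpq1, hpq2, lam₀, hlam₀, hT⟩ :=
    hThin lam α δ C f hlam hlam' hα hα' hδ hδ' hf (ε / 2) 1 (by linarith)
  have hq0 : (0 : ℝ) < q := by
    have : 0 < q := by omega
    exact_mod_cast this
  -- an open set of base points
  have hcont := hOff lam C hlam hlam' z₁ υ₁ hz₁
  have h1 : ∀ᶠ z in 𝓝 z₁, C.h (z, υ₁) ∈ U := by
    have h2 : ContinuousAt (fun z => C.h (z, υ₁)) z₁ :=
      ContinuousAt.comp (g := C.h) (f := fun z : B => (z, υ₁)) hcont (by fun_prop)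
    exact h2.eventually (hU.mem_nhds hx₁)
  obtain ⟨O₁, hO₁U, hO₁, hz₁O⟩ := _root_.mem_nhds_iff.1 h1
  obtain ⟨z₂, hz₂O, ⟨⟨y, s, θ⟩, rfl⟩⟩ := b.β_dense.inter_open_nonempty O₁ hO₁ ⟨z₁, hz₁O⟩
  -- move the angle
  have h3 : ∀ᶠ t in 𝓝 θ, b.β (y, s, t) ∈ O₁ := by
    have : Continuous fun t : ℝ => b.β (y, s, t) := b.β_cont.comp (by fun_prop)
    exact this.continuousAt.eventually (hO₁.mem_nhds hz₂O)
  obtain ⟨r, hr, hr'⟩ := Metric.eventually_nhds_iff.1 h3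
  have h4 : ∃ t, b.β (y, s, t) ∈ O₁ ∧ cr (q * t - p * s) ≠ 0 := by
    by_cases h5 : cr (q * θ - p * s) = 0
    · obtain ⟨k, hk⟩ := (cr_eq_zero_iff _).1 h5
      set t := min (r / 2) (1 / (2 * q)) with ht
      have ht0 : 0 < t := by
        rw [ht]
        positivity
      have ht1 : q * t ≤ 1 / 2 := by
        calc q * t ≤ q * (1 / (2 * q)) := by
              gcongr
              exact min_le_right _ _
          _ = 1 / 2 := by field_simp
      refine ⟨θ + t, hr' ?_, ?_⟩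
      · rw [Real.dist_eq, add_sub_cancel_left, abs_of_pos ht0]
        exact (min_le_left _ _).trans_lt (by linarith)
      · have h6 : q * (θ + t) - p * s = q * t + k := by
          rw [← hk]
          ring
        rw [h6, cr_add_int]
        intro h7
        obtain ⟨l, hl⟩ := (cr_eq_zero_iff _).1 h7
        have h8 : (0 : ℝ) < l := by
          rw [← hl]
          positivity
        have h9 : (l : ℝ) < 1 := by
          rw [← hl]
          linarith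
        have h10 : 0 < l := by exact_mod_cast h8
        have h11 : l < 1 := by exact_mod_cast h9
        omega
    · exact ⟨θ, hz₂O, h5⟩
  obtain ⟨t, htO, htc⟩ := h4
  have hpos : 0 < |cr (q * t - p * s)| := abs_pos.2 htc
  set lam' := min (lam₀ / 2) (min (1 / 20) (min (1 / (16 * q)) (|cr (q * t - p * s)| / (4 * q))))
    with hlam'def
  have hl1 : 0 < lam' := by
    rw [hlam'def]
    positivity
  have hl2 : lam' < lam₀ := (min_le_left _ _).trans_lt (by linarith)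
  have hl3 : lam' ≤ 1 / 20 := (min_le_right _ _).trans (min_le_left _ _)
  have hl4 : 8 * (q : ℝ) * lam' < 1 := by
    have : lam' ≤ 1 / (16 * q) :=
      (min_le_right _ _).trans ((min_le_right _ _).trans (min_le_left _ _))
    calc 8 * (q : ℝ) * lam' ≤ 8 * (q : ℝ) * (1 / (16 * q)) := by gcongr
      _ < 1 := by
        field_simp
        norm_num
  have hl5 : (q : ℝ) * (2 * lam') < |cr (q * t - p * s)| := by
    have : lam' ≤ |cr (q * t - p * s)| / (4 * q) :=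
      (min_le_right _ _).trans ((min_le_right _ _).trans (min_le_right _ _))
    calc (q : ℝ) * (2 * lam') ≤ (q : ℝ) * (2 * (|cr (q * t - p * s)| / (4 * q))) := by gcongr
      _ = |cr (q * t - p * s)| / 2 := by
        field_simp
        norm_num
      _ < |cr (q * t - p * s)| := by linarith
  obtain ⟨C', ⟨j, hj⟩, -, δ₀, hδ₀, hF⟩ := hT lam' hl1 hl2
  set δ' := min (δ₀ / 2) (1 / 20) with hδ'def
  have hd1 : 0 < δ' := by
    rw [hδ'def]
    positivity
  have hd2 : δ' < δ₀ := (min_le_left _ _).trans_lt (by linarith)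
  obtain ⟨f', hf'⟩ := hFr lam' (p / q) δ' C' hl1 hl3 hpq1 hpq2 hd1 (min_le_right _ _)
  have hfine1 := hF δ' f' hd1 hd2 hf'
  -- the open set `V`
  set z₃ := b.β (y, s, t) with hz₃
  have hslab : z₃ ∉ b.slab p q (2 * lam') := by
    rw [hz₃, b.mem_slab_iff]
    rintro ⟨-, h5⟩
    linarith
  have hsheet : z₃ ∉ b.Sheet lam' := fun h5 =>
    hslab (b.slab_mono p q (by linarith) (b.sheet_subset_slab lam' p q h5))
  have hV1 : C'.h (z₃, υ₁ - j z₃) ∈ U := by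
    rw [hj, sub_add_cancel]
    exact hO₁U htO
  have hcont' := hOff lam' C' hl1 hl3 z₃ (υ₁ - j z₃) hsheet
  set V : Set (B × T) := interior (C'.h ⁻¹' U) ∩ Prod.fst ⁻¹' (b.slab p q (2 * lam'))ᶜ with hVdef
  have hVo : IsOpen V :=
    isOpen_interior.inter ((b.slab_closed p q _).isOpen_compl.preimage continuous_fst)
  have hVne : V.Nonempty := by
    refine ⟨(z₃, υ₁ - j z₃), ?_, hslab⟩
    rw [mem_interior_iff_mem_nhds]
    exact hcont'.preimage_mem_nhds (hU.mem_nhds hV1)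
  obtain ⟨C'', α'', δ'', f'', N, ha1, ha2, hd3, hd4, hf'', hfine2, hhit⟩ :=
    hAK lam' δ' C' f' p q hl1 hl3 hl4 hq hpq hpq1 hpq2 hd1 (min_le_right _ _) hf' U V (ε / 2) hVo
      hVne (fun x hx => interior_subset (s := C'.h ⁻¹' U) hx.1) (fun x hx => hx.2) (by linarith)
  refine ⟨(f'', C''.W α'' δ''), ⟨lam', α'', δ'', C'', hl1, hl3, ha1, ha2, hd3, hd4, hf'', rfl⟩, N,
    ?_, hhit⟩
  exact (hfine2.trans hfine1).mono (by linarith)

/-- the limit homeomorphism on `M` -/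
theorem limit_on_M [CompactSpace M] (b : Base X Y B) (e : M) (hS : Scheme_Stmt)
    (hNhd : Nhd_Stmt b M e) (hA : PropA (Stages b M e)) (hB : PropB (Stages b M e) e)
    (hFr : Frozen_Stmt b M e) (C : Coord b (1 / 20) M e) :
    ∃ f : M ≃ₜ M, f e = e ∧ ∀ x, x ≠ e → ∀ U : Set M, IsOpen U → U.Nonempty →
      ∃ k : ℕ, (⇑f)^[k] x ∈ U ∨ (⇑f.symm)^[k] x ∈ U := by
  refine hS M e (Stages b M e) ?_ ?_ hA hB
  · obtain ⟨f, hf⟩ := hFr (1 / 20) (1 / 4) (1 / 20) C (by norm_num) le_rfl (by norm_num)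
      (by norm_num) (by norm_num) le_rfl
    exact ⟨(f, C.W (1 / 4) (1 / 20)), 1 / 20, 1 / 4, 1 / 20, C, by norm_num, le_rfl, by norm_num,
      by norm_num, by norm_num, le_rfl, hf, rfl⟩
  · rintro ⟨f, W⟩ ⟨lam, α, δ, C', h1, h2, h3, h4, h5, h6, h7, h8⟩
    simp only at h7 h8 ⊢
    subst h8
    obtain ⟨h9, h10⟩ := hNhd lam α δ C' h1 h2 h3 h4 h5 h6
    exact ⟨h9, h10, h7.1⟩

end Pool.Agent.EvenHomeo
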