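import Pool.Agent.Lib_helper30.EvenHomeo.Defs

/-!
# CALC: elementary facts on the twist, the lines and the map `L`
-/

open Set Metric Topology

namespace Pool.Agent.EvenHomeo

/-! ### the centred representative -/

theorem abs_cr (x : ℝ) : |cr x| = ‖(x : T)‖ := (UnitAddCircle.norm_eq).symm

theorem abs_cr_le_half (x : ℝ) : |cr x| ≤ 1 / 2 := abs_sub_round x

theorem abs_cr_le_sub (x : ℝ) (k : ℤ) : |cr x| ≤ |x - k| := round_le x k

theorem abs_cr_le (x : ℝ) : |cr x| ≤ |x| := by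
  simpa using abs_cr_le_sub x 0

theorem abs_cr_add (x y : ℝ) : |cr (x + y)| ≤ |cr x| + |cr y| := by
  rw [abs_cr, abs_cr, abs_cr, AddCircle.coe_add]
  exact norm_add_le _ _

theorem abs_cr_sub (x y : ℝ) : |cr (x - y)| ≤ |cr x| + |cr y| := by
  rw [abs_cr, abs_cr, abs_cr, AddCircle.coe_sub]
  exact norm_sub_le _ _

theorem abs_cr_neg (x : ℝ) : |cr (-x)| = |cr x| := by
  rw [abs_cr, abs_cr, AddCircle.coe_neg, norm_neg]

/-- reverse triangle inequality -/
theorem abs_cr_add_ge (x y : ℝ) : |cr x| - |y| ≤ |cr (x + y)| := by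
  have h := abs_cr_sub (x + y) y
  rw [add_sub_cancel_right] at h
  have := abs_cr_le y
  linarith

theorem cr_add_int (x : ℝ) (k : ℤ) : cr (x + k) = cr x := by
  unfold cr
  rw [round_add_intCast]
  push_cast
  ring

theorem cr_of_abs_lt {x : ℝ} (h : |x| < 1 / 2) : cr x = x := by
  unfold cr
  have : round x = 0 := by
    rw [round_eq, Int.floor_eq_iff]
    rw [abs_lt] at h
    constructor <;> push_cast <;> linarith
  rw [this]
  simp

theorem coe_cr (x : ℝ) : ((cr x : ℝ) : T) = (x : T) := by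
  unfold cr
  rw [AddCircle.coe_sub]
  have : (((round x : ℤ) : ℝ) : T) = 0 := (AddCircle.coe_eq_zero_iff 1).2 ⟨round x, by simp⟩
  rw [this, sub_zero]

theorem cr_eq_zero_iff (x : ℝ) : cr x = 0 ↔ ∃ k : ℤ, x = k := by
  constructor
  · intro h
    exact ⟨round x, by unfold cr at h; linarith⟩
  · rintro ⟨k, rfl⟩
    unfold cr
    simp

theorem coe_int (k : ℤ) : ((k : ℝ) : T) = 0 := (AddCircle.coe_eq_zero_iff 1).2 ⟨k, by simp⟩

theorem cr_continuous_abs : Continuous fun x : ℝ => |cr x| := by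
  simp_rw [abs_cr]
  exact continuous_norm.comp (AddCircle.continuous_mk' 1)

/-- `cr` is a translation on intervals which do not meet the half integers -/
theorem cr_add_of_abs_lt {x y : ℝ} (h : |cr x + y| < 1 / 2) : cr (x + y) = cr x + y := by
  have h1 : x + y = (cr x + y) + (round x : ℤ) := by
    unfold cr
    ring
  rw [h1, cr_add_int, cr_of_abs_lt h]

/-- lower bound for fractions -/
theorem le_abs_cr_frac {p q : ℕ} (hq : 1 ≤ q) (hpq : Nat.Coprime p q) {k : ℤ}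
    (hk : ¬ (q : ℤ) ∣ k) : 1 / (q : ℝ) ≤ |cr (((p : ℝ) / q) * k)| := by
  have hq0 : (0 : ℝ) < q := by exact_mod_cast hq
  have h1 : cr (((p : ℝ) / q) * k) = (((p : ℤ) * k - q * round (((p : ℝ) / q) * k) : ℤ) : ℝ) / q := by
    unfold cr
    push_cast
    field_simp
  rw [h1, abs_div, abs_of_pos hq0, div_le_div_iff_of_pos_right hq0]
  have h2 : ((p : ℤ) * k - q * round (((p : ℝ) / q) * k)) ≠ 0 := by
    intro h
    apply hk
    have h3 : (q : ℤ) ∣ (p : ℤ) * k := ⟨round (((p : ℝ) / q) * k), by linarith⟩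
    have h4 : IsCoprime (q : ℤ) (p : ℤ) := by
      rw [Int.isCoprime_iff_gcd_eq_one]
      simpa [Int.gcd, Nat.gcd_comm] using hpq
    exact h4.dvd_of_dvd_mul_left h3
  have h5 : (1 : ℤ) ≤ |(p : ℤ) * k - q * round (((p : ℝ) / q) * k)| := Int.one_le_abs h2
  exact_mod_cast h5

/-! ### the twist -/

theorem tw_add_int (w x : ℝ) (k : ℤ) : tw w (x + k) = tw w x := by
  unfold tw
  rw [cr_add_int]

theorem D_nonpos {lam r : ℝ} (h : r ≤ 0) (θ : ℝ) : D lam r θ = 0 := by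
  unfold D
  rw [if_pos h]

theorem D_pos {lam r : ℝ} (h : 0 < r) (θ : ℝ) : D lam r θ = ((tw (min lam r) θ : ℝ) : T) := by
  unfold D
  rw [if_neg (not_le.2 h)]

theorem D_add_int (lam r θ : ℝ) (k : ℤ) : D lam r (θ + k) = D lam r θ := by
  unfold D
  rw [tw_add_int]

theorem D_sub_int (lam r θ : ℝ) (k : ℤ) : D lam r (θ - k) = D lam r θ := by
  have := D_add_int lam r θ (-k)
  rw [← this]
  push_cast
  ring_nf

theorem D_zero {lam r θ : ℝ} (hlam : 0 < lam) (h : min lam r ≤ |cr θ|) : D lam r θ = 0 := by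
  rcases le_or_gt r 0 with hr | hr
  · exact D_nonpos hr θ
  rw [D_pos hr]
  have hw : 0 < min lam r := lt_min hlam hr
  unfold tw
  rcases le_or_gt 0 (cr θ) with hc | hc
  · rw [abs_of_nonneg hc] at h
    have h1 : 1 ≤ cr θ / min lam r := (one_le_div hw).2 h
    rw [min_eq_left h1, max_eq_right (by norm_num)]
    have : ((1 + 1 : ℝ) / 2) = ((1 : ℤ) : ℝ) := by norm_num
    rw [this, coe_int]
  · rw [abs_of_neg hc] at h
    have h1 : cr θ / min lam r ≤ -1 := by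
      rw [div_le_iff₀ hw]
      linarith
    rw [min_eq_right (by linarith), max_eq_left h1]
    simp

theorem D_zero_of_le {lam r θ : ℝ} (hlam : 0 < lam) (h : lam ≤ |cr θ|) : D lam r θ = 0 :=
  D_zero hlam ((min_le_left _ _).trans h)

theorem tw_lip {w x y : ℝ} (hw : 0 < w) (h : |cr x + y| < 1 / 2) :
    |tw w (x + y) - tw w x| ≤ |y| / (2 * w) := by
  unfold tw
  rw [cr_add_of_abs_lt h]
  have h1 : |max (-1) (min 1 ((cr x + y) / w)) - max (-1) (min 1 (cr x / w))| ≤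
      |(cr x + y) / w - cr x / w| := by
    refine (abs_max_sub_max_le_max _ _ _ _).trans ?_
    rw [sub_self, abs_zero, max_eq_right (abs_nonneg _)]
    refine (abs_min_sub_min_le_max _ _ _ _).trans ?_
    rw [sub_self, abs_zero, max_eq_right (abs_nonneg _)]
  have h2 : (cr x + y) / w - cr x / w = y / w := by ring
  rw [h2, abs_div, abs_of_pos hw] at h1
  have h3 : (1 + max (-1) (min 1 ((cr x + y) / w))) / 2 - (1 + max (-1) (min 1 (cr x / w))) / 2 =
    (max (-1) (min 1 ((cr x + y) / w)) - max (-1) (min 1 (cr x / w))) / 2 := by ring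
  rw [h3, abs_div, abs_two, mul_comm 2 w, ← div_div]
  exact div_le_div_of_nonneg_right h1 zero_le_two

theorem norm_coe_le (x : ℝ) : ‖(x : T)‖ ≤ |x| := by
  rw [← abs_cr]
  exact abs_cr_le x

/-- Lipschitz estimate for the twist -/
theorem D_lip {lam r θ y : ℝ} (hlam : 0 < lam) (hlam' : lam ≤ 1 / 20) (hr : 0 < r)
    (hy : |y| ≤ 1 / 8) : ‖D lam r (θ + y) - D lam r θ‖ ≤ |y| / (2 * min lam r) := by
  have hw : 0 < min lam r := lt_min hlam hr
  rcases le_or_gt |cr θ| (1 / 4) with h | h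
  · rw [D_pos hr, D_pos hr, ← AddCircle.coe_sub]
    refine (norm_coe_le _).trans (tw_lip hw ?_)
    calc |cr θ + y| ≤ |cr θ| + |y| := abs_add_le _ _
      _ < 1 / 2 := by linarith
  · have h1 := abs_cr_add_ge θ y
    rw [D_zero_of_le hlam (by linarith), D_zero_of_le hlam (by linarith), sub_zero, norm_zero]
    positivity

/-- uniform continuity of the twist away from the poles -/
theorem D_close {lam δ κ : ℝ} (hlam : 0 < lam) (hlam' : lam ≤ 1 / 20) (hδ : 0 < δ) (hκ : 0 < κ) :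
    ∃ κ' : ℝ, 0 < κ' ∧ ∀ r θ θ' : ℝ, |θ - θ'| ≤ κ' → (δ < |cr θ| ∨ δ < |r|) →
      ‖D lam r θ - D lam r θ'‖ ≤ κ := by
  have hm : 0 < min lam (δ / 2) := lt_min hlam (by linarith)
  refine ⟨min (1 / 8) (min (δ / 2) (2 * min lam (δ / 2) * κ)), by positivity, ?_⟩
  intro r θ θ' h1 h2
  have h3 : |θ - θ'| ≤ 1 / 8 := h1.trans (min_le_left _ _)
  have h4 : |θ - θ'| ≤ δ / 2 := h1.trans ((min_le_right _ _).trans (min_le_left _ _))
  have h5 : |θ - θ'| ≤ 2 * min lam (δ / 2) * κ :=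
    h1.trans ((min_le_right _ _).trans (min_le_right _ _))
  rcases le_or_gt r 0 with hr | hr
  · rw [D_nonpos hr, D_nonpos hr, sub_zero, norm_zero]
    exact hκ.le
  rcases le_or_gt (δ / 2) r with hr' | hr'
  · have h6 := D_lip (θ := θ') (y := θ - θ') hlam hlam' hr h3
    rw [add_sub_cancel] at h6
    refine h6.trans ?_
    have h7 : min lam (δ / 2) ≤ min lam r := min_le_min_left _ hr'
    rw [div_le_iff₀ (by positivity)]
    calc |θ - θ'| ≤ 2 * min lam (δ / 2) * κ := h5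
      _ ≤ 2 * min lam r * κ := by gcongr
      _ = κ * (2 * min lam r) := by ring
  · have h6 : δ < |cr θ| := by
      rcases h2 with h2 | h2
      · exact h2
      · rw [abs_of_pos hr] at h2
        linarith
    have h7 := abs_cr_add_ge θ (θ' - θ)
    rw [abs_sub_comm, add_sub_cancel] at h7
    have h8 : min lam r ≤ r := min_le_right _ _
    rw [D_zero hlam (by linarith), D_zero hlam (by linarith), sub_zero, norm_zero]
    exact hκ.le

theorem cr_continuousAt {θ : ℝ} (h : |cr θ| < 1 / 2) : ContinuousAt cr θ := by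
  have h1 : ∀ᶠ x in 𝓝 θ, cr x = cr θ + (x - θ) := by
    have h2 : ∀ᶠ x in 𝓝 θ, |cr θ + (x - θ)| < 1 / 2 := by
      have : Continuous fun x : ℝ => |cr θ + (x - θ)| := by fun_prop
      refine this.continuousAt.eventually_lt continuousAt_const ?_
      simpa using h
    filter_upwards [h2] with x hx
    have := cr_add_of_abs_lt hx
    rwa [add_sub_cancel] at this
  have h3 : ContinuousAt (fun x : ℝ => cr θ + (x - θ)) θ := by fun_prop
  exact h3.congr (h1.mono fun x hx => hx.symm)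

/-- the twist is continuous except at the poles -/
theorem D_continuousAt {lam r θ : ℝ} (hlam : 0 < lam) (hlam' : lam ≤ 1 / 20)
    (h : ¬ (r = 0 ∧ cr θ = 0)) : ContinuousAt (fun x : ℝ × ℝ => D lam x.1 x.2) (r, θ) := by
  have habs : Continuous fun x : ℝ × ℝ => |cr x.2| := cr_continuous_abs.comp continuous_snd
  have hzero : (∀ᶠ x : ℝ × ℝ in 𝓝 (r, θ), D lam x.1 x.2 = 0) →
      ContinuousAt (fun x : ℝ × ℝ => D lam x.1 x.2) (r, θ) := by
    intro h1
    exact (continuousAt_const (y := (0 : T))).congr (h1.mono fun x hx => hx.symm)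
  rcases lt_trichotomy r 0 with hr | hr | hr
  · apply hzero
    have : ∀ᶠ x : ℝ × ℝ in 𝓝 (r, θ), x.1 < 0 :=
      continuous_fst.continuousAt.eventually_lt continuousAt_const hr
    filter_upwards [this] with x hx
    exact D_nonpos hx.le _
  · apply hzero
    have hc : 0 < |cr θ| := abs_pos.2 fun h0 => h ⟨hr, h0⟩
    have : ∀ᶠ x : ℝ × ℝ in 𝓝 (r, θ), x.1 < |cr x.2| :=
      continuous_fst.continuousAt.eventually_lt habs.continuousAt (by simpa [hr] using hc)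
    filter_upwards [this] with x hx
    exact D_zero hlam ((min_le_right _ _).trans hx.le)
  · rcases lt_or_ge |cr θ| (1 / 2) with hc | hc
    · have h1 : ∀ᶠ x : ℝ × ℝ in 𝓝 (r, θ), 0 < x.1 :=
        continuousAt_const.eventually_lt continuous_fst.continuousAt hr
      have h2 : ContinuousAt (fun x : ℝ × ℝ => tw (min lam x.1) x.2) (r, θ) := by
        unfold tw
        have h3 : ContinuousAt (fun x : ℝ × ℝ => cr x.2) (r, θ) :=
          ContinuousAt.comp (f := fun x : ℝ × ℝ => x.2) (g := cr) (cr_continuousAt hc)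
            continuous_snd.continuousAt
        have h4 : ContinuousAt (fun x : ℝ × ℝ => cr x.2 / min lam x.1) (r, θ) :=
          h3.div (by fun_prop) (lt_min hlam hr).ne'
        have h5 : Continuous fun y : ℝ => (1 + max (-1) (min 1 y)) / 2 := by fun_prop
        exact ContinuousAt.comp (g := fun y : ℝ => (1 + max (-1) (min 1 y)) / 2)
          (f := fun x : ℝ × ℝ => cr x.2 / min lam x.1) h5.continuousAt h4
      have h6 : ContinuousAt (fun x : ℝ × ℝ => ((tw (min lam x.1) x.2 : ℝ) : T)) (r, θ) :=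
        ContinuousAt.comp (g := fun y : ℝ => (y : T)) (f := fun x : ℝ × ℝ => tw (min lam x.1) x.2)
          (AddCircle.continuous_mk' 1).continuousAt h2
      exact h6.congr (h1.mono fun x hx => (D_pos hx _).symm)
    · apply hzero
      have : ∀ᶠ x : ℝ × ℝ in 𝓝 (r, θ), lam < |cr x.2| :=
        continuousAt_const.eventually_lt habs.continuousAt (by
          have : lam < |cr θ| := by linarith
          simpa using this)
      filter_upwards [this] with x hx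
      exact D_zero_of_le hlam hx.le

/-! ### the function `ee` -/

theorem ee_add_int (r θ : ℝ) (υ : T) (k : ℤ) : ee r (θ + k) υ = ee r θ υ := by
  unfold ee
  rw [cr_add_int]

theorem abs_cr_le_ee (r θ : ℝ) (υ : T) : |cr θ| ≤ ee r θ υ := le_max_left _ _

theorem neg_le_ee (r θ : ℝ) (υ : T) : -r ≤ ee r θ υ :=
  (le_max_left _ _).trans (le_max_right _ _)

theorem min_le_ee (r θ : ℝ) (υ : T) : min ‖υ‖ r ≤ ee r θ υ :=
  (le_max_right _ _).trans (le_max_right _ _)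

theorem ee_nonneg (r θ : ℝ) (υ : T) : 0 ≤ ee r θ υ := (abs_nonneg _).trans (abs_cr_le_ee r θ υ)

theorem ee_le_iff {r θ δ : ℝ} {υ : T} :
    ee r θ υ ≤ δ ↔ |cr θ| ≤ δ ∧ -r ≤ δ ∧ (‖υ‖ ≤ δ ∨ r ≤ δ) := by
  unfold ee
  rw [max_le_iff, max_le_iff, min_le_iff]

theorem lt_ee_imp {r θ δ : ℝ} {υ : T} (h : δ < ee r θ υ) : δ < |cr θ| ∨ δ < |r| := by
  by_contra hcon
  rw [not_or, not_lt, not_lt] at hcon
  obtain ⟨h1, h2⟩ := hcon
  rw [abs_le] at h2
  exact absurd (ee_le_iff.2 ⟨h1, by linarith, Or.inr h2.2⟩) (not_le.2 h)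

theorem ee_continuous : Continuous fun x : ℝ × ℝ × T => ee x.1 x.2.1 x.2.2 := by
  unfold ee
  have h1 : Continuous fun x : ℝ × ℝ × T => |cr x.2.1| :=
    cr_continuous_abs.comp (continuous_fst.comp continuous_snd)
  exact h1.max ((continuous_fst.neg).max
    ((continuous_norm.comp (continuous_snd.comp continuous_snd)).min continuous_fst))

theorem ee_eq_zero_iff {r θ : ℝ} {υ : T} :
    ee r θ υ = 0 ↔ cr θ = 0 ∧ 0 ≤ r ∧ (r = 0 ∨ υ = 0) := by
  constructor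
  · intro h
    have h1 := abs_cr_le_ee r θ υ
    have h2 := neg_le_ee r θ υ
    have h3 := min_le_ee r θ υ
    rw [h] at h1 h2 h3
    refine ⟨abs_eq_zero.1 (le_antisymm h1 (abs_nonneg _)), by linarith, ?_⟩
    rcases min_le_iff.1 h3 with h4 | h4
    · exact Or.inr (norm_le_zero_iff.1 h4)
    · exact Or.inl (by linarith)
  · rintro ⟨h1, h2, h3⟩
    refine le_antisymm (ee_le_iff.2 ⟨by rw [h1, abs_zero], by linarith, ?_⟩) (ee_nonneg _ _ _)
    rcases h3 with h3 | h3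
    · exact Or.inr h3.le
    · exact Or.inl (by rw [h3, norm_zero])

/-- `ee` in left coordinates is continuous everywhere -/
theorem eeL_continuous {lam : ℝ} (hlam : 0 < lam) (hlam' : lam ≤ 1 / 20) :
    Continuous fun x : ℝ × ℝ × T => ee x.1 x.2.1 (x.2.2 + D lam x.1 x.2.1) := by
  rw [continuous_iff_continuousAt]
  rintro ⟨r, θ, υ⟩
  by_cases h : r = 0 ∧ cr θ = 0
  · obtain ⟨rfl, h0⟩ := h
    have hz : ee 0 θ (υ + D lam 0 θ) = 0 := ee_eq_zero_iff.2 ⟨h0, le_rfl, Or.inl rfl⟩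
    unfold ContinuousAt
    simp only [hz]
    have hb : ∀ x : ℝ × ℝ × T, ee x.1 x.2.1 (x.2.2 + D lam x.1 x.2.1) ≤ max |cr x.2.1| |x.1| := by
      intro x
      refine ee_le_iff.2 ⟨le_max_left _ _, (neg_le_abs _).trans (le_max_right _ _),
        Or.inr ((le_abs_self _).trans (le_max_right _ _))⟩
    have hc : Continuous fun x : ℝ × ℝ × T => max |cr x.2.1| |x.1| :=
      (cr_continuous_abs.comp (continuous_fst.comp continuous_snd)).max continuous_fst.abs
    refine squeeze_zero (fun x => ee_nonneg _ _ _) hb ?_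
    have := hc.tendsto (0, θ, υ)
    simpa [h0] using this
  · have h1 : ContinuousAt (fun x : ℝ × ℝ × T => D lam x.1 x.2.1) (r, θ, υ) :=
      ContinuousAt.comp (g := fun x : ℝ × ℝ => D lam x.1 x.2)
        (f := fun x : ℝ × ℝ × T => (x.1, x.2.1)) (D_continuousAt hlam hlam' h)
        (by fun_prop)
    have h2 : ContinuousAt (fun x : ℝ × ℝ × T => (x.1, x.2.1, x.2.2 + D lam x.1 x.2.1))
        (r, θ, υ) := by
      refine continuousAt_fst.prodMk (ContinuousAt.prodMk ?_ (ContinuousAt.add ?_ h1))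
      · fun_prop
      · fun_prop
    exact ContinuousAt.comp (g := fun x : ℝ × ℝ × T => ee x.1 x.2.1 x.2.2)
      (f := fun x : ℝ × ℝ × T => (x.1, x.2.1, x.2.2 + D lam x.1 x.2.1))
      ee_continuous.continuousAt h2

/-! ### the base -/

section BaseLemmas

variable {X : Type} [NormedAddCommGroup X] [NormedSpace ℝ X] {Y B : Type} [MetricSpace Y]
  [MetricSpace B]

namespace Base

variable (b : Base X Y B)

theorem R_zero (z : B) : b.R 0 z = z := by
  have := b.R_add 0 1 z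
  rw [zero_add, b.R_one] at this
  exact this.symm

theorem R_neg_R (t : ℝ) (z : B) : b.R (-t) (b.R t z) = z := by
  rw [← b.R_add, neg_add_cancel, b.R_zero]

theorem R_R_neg (t : ℝ) (z : B) : b.R t (b.R (-t) z) = z := by
  rw [← b.R_add, add_neg_cancel, b.R_zero]

theorem β_add_s (y : Y) (s θ : ℝ) (k : ℤ) : b.β (y, s + k, θ) = b.β (y, s, θ) :=
  ((b.β_eq _ _ _ _ _ _).2 ⟨rfl, ⟨k, rfl⟩, ⟨0, by simp⟩⟩).symm

theorem β_add_θ (y : Y) (s θ : ℝ) (k : ℤ) : b.β (y, s, θ + k) = b.β (y, s, θ) :=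
  ((b.β_eq _ _ _ _ _ _).2 ⟨rfl, ⟨0, by simp⟩, ⟨k, rfl⟩⟩).symm

/-- normalised representatives -/
theorem exists_rep {z : B} (hz : z ∈ range b.β) :
    ∃ y s θ, 0 ≤ s ∧ s < 1 ∧ |θ| ≤ 1 / 2 ∧ z = b.β (y, s, θ) := by
  obtain ⟨⟨y, s, θ⟩, rfl⟩ := hz
  refine ⟨y, Int.fract s, cr θ, Int.fract_nonneg s, Int.fract_lt_one s, abs_cr_le_half θ, ?_⟩
  rw [b.β_eq]
  refine ⟨rfl, ⟨-⌊s⌋, ?_⟩, ⟨-round θ, ?_⟩⟩
  · push_cast
    rw [← sub_eq_add_neg]
    rfl
  · push_cast
    rw [← sub_eq_add_neg]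
    rfl

theorem cross_β (lam α : ℝ) {s : ℝ} (hs : 0 ≤ s) (hs' : s < 1) (y : Y) (θ : ℝ) :
    b.cross lam α (b.β (y, s, θ)) = D lam (b.ρ y) (θ + α * (1 - s)) := by
  have h : ∃ q : Y × ℝ × ℝ, (0 ≤ q.2.1 ∧ q.2.1 < 1) ∧ b.β q = b.β (y, s, θ) :=
    ⟨(y, s, θ), ⟨hs, hs'⟩, rfl⟩
  unfold cross
  rw [dif_pos h]
  obtain ⟨⟨h1, h2⟩, h3⟩ := h.choose_spec
  generalize h.choose = q at h1 h2 h3 ⊢
  obtain ⟨y', s', θ'⟩ := q
  simp only at h1 h2 h3 ⊢
  obtain ⟨rfl, ⟨k, hk⟩, ⟨l, hl⟩⟩ := (b.β_eq _ _ _ _ _ _).1 h3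
  have hk0 : k = 0 := by
    have h4 : -1 < k := by
      have : (-1 : ℝ) < k := by linarith
      exact_mod_cast this
    have h5 : k < 1 := by
      have : (k : ℝ) < 1 := by linarith
      exact_mod_cast this
    omega
  subst hk0
  have hss : s = s' := by simpa using hk
  subst hss
  rw [hl]
  have : θ' + (l : ℝ) + α * (1 - s) = (θ' + α * (1 - s)) + l := by ring
  rw [this, D_add_int]

theorem cross_off (lam α : ℝ) {z : B} (hz : z ∉ range b.β) : b.cross lam α z = 0 := by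
  unfold cross
  rw [dif_neg]
  rintro ⟨q, -, rfl⟩
  exact hz (mem_range_self q)

theorem R_range_iff (t : ℝ) (z : B) : b.R t z ∈ range b.β ↔ z ∈ range b.β := by
  constructor
  · rintro ⟨⟨y, s, θ⟩, h⟩
    refine ⟨(y, s, θ + -t), ?_⟩
    rw [← b.R_β, h, b.R_neg_R]
  · rintro ⟨⟨y, s, θ⟩, rfl⟩
    exact ⟨(y, s, θ + t), (b.R_β _ _ _ _).symm⟩

theorem L_β (lam α : ℝ) {s : ℝ} (hs : 0 ≤ s) (hs' : s < 1) (y : Y) (θ : ℝ) (υ : T) :
    b.L lam α (b.β (y, s, θ), υ) =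
      (b.β (y, s, θ + α), υ + D lam (b.ρ y) (θ + α * (1 - s))) := by
  show (b.R α (b.β (y, s, θ)), υ + b.cross lam α (b.β (y, s, θ))) = _
  rw [b.R_β, b.cross_β lam α hs hs']

theorem L_off (lam α : ℝ) {z : B} (hz : z ∉ range b.β) (υ : T) :
    b.L lam α (z, υ) = (b.R α z, υ) := by
  show (b.R α z, υ + b.cross lam α z) = _
  rw [b.cross_off lam α hz, add_zero]

theorem L_symm_β (lam α : ℝ) {s : ℝ} (hs : 0 ≤ s) (hs' : s < 1) (y : Y) (θ : ℝ) (υ : T) :
    (b.L lam α).symm (b.β (y, s, θ), υ) =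
      (b.β (y, s, θ - α), υ - D lam (b.ρ y) (θ - α * s)) := by
  show (b.R (-α) (b.β (y, s, θ)), υ - b.cross lam α (b.R (-α) (b.β (y, s, θ)))) = _
  rw [b.R_β, b.cross_β lam α hs hs', sub_eq_add_neg θ α]
  congr 3
  ring

theorem L_symm_off (lam α : ℝ) {z : B} (hz : z ∉ range b.β) (υ : T) :
    (b.L lam α).symm (z, υ) = (b.R (-α) z, υ) := by
  show (b.R (-α) z, υ - b.cross lam α (b.R (-α) z)) = _
  rw [b.cross_off lam α (fun h => hz ((b.R_range_iff _ _).1 h)), sub_zero]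

theorem L_fst (lam α : ℝ) (p : B × T) : (b.L lam α p).1 = b.R α p.1 := rfl

theorem L_symm_fst (lam α : ℝ) (p : B × T) : ((b.L lam α).symm p).1 = b.R (-α) p.1 := rfl

/-! ### lines -/

theorem ta_fst (lam α : ℝ) (y : Y) (θ σ : ℝ) (υ : T) :
    (b.ta lam α y θ σ υ).1 = b.β (y, σ, θ + α * σ) := rfl

theorem ta_of_nonneg (lam α : ℝ) (y : Y) (θ : ℝ) {σ : ℝ} (h : 0 ≤ σ) (υ : T) :
    b.ta lam α y θ σ υ = (b.β (y, σ, θ + α * σ), υ) := by
  unfold ta
  rw [if_neg (not_lt.2 h), sub_zero]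

theorem ta_of_neg (lam α : ℝ) (y : Y) (θ : ℝ) {σ : ℝ} (h : σ < 0) (υ : T) :
    b.ta lam α y θ σ υ = (b.β (y, σ, θ + α * σ), υ - D lam (b.ρ y) θ) := by
  unfold ta
  rw [if_pos h]

theorem ta_add_int (lam α : ℝ) (y : Y) (θ σ : ℝ) (υ : T) (k : ℤ) :
    b.ta lam α y (θ + k) σ υ = b.ta lam α y θ σ υ := by
  unfold ta
  rw [D_add_int, show θ + (k : ℝ) + α * σ = (θ + α * σ) + k by ring, b.β_add_θ]

/-- previous crossing -/
theorem rep_prev (lam α : ℝ) (y : Y) {s : ℝ} (hs : 0 ≤ s) (θ : ℝ) (υ : T) :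
    (b.β (y, s, θ), υ) = b.ta lam α y (θ - α * s) s υ := by
  rw [b.ta_of_nonneg lam α y _ hs, sub_add_cancel]

/-- next crossing -/
theorem rep_next (lam α : ℝ) (y : Y) {s : ℝ} (hs : s < 1) (θ : ℝ) (υ : T) :
    (b.β (y, s, θ), υ) =
      b.ta lam α y (θ + α * (1 - s)) (s - 1) (υ + D lam (b.ρ y) (θ + α * (1 - s))) := by
  rw [b.ta_of_neg lam α y _ (by linarith), add_sub_cancel_right]
  have h1 : θ + α * (1 - s) + α * (s - 1) = θ := by ring
  have h2 := b.β_add_s y s θ (-1)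
  push_cast at h2
  rw [h1, sub_eq_add_neg, h2]

/-- the map `L` is the time one map of the lines if the other crossing is untwisted -/
theorem L_ta (lam α : ℝ) (y : Y) (θ σ : ℝ) (υ : T)
    (h : ⌊σ⌋ + 1 ≠ 0 → D lam (b.ρ y) (θ + α * ((⌊σ⌋ + 1 : ℤ) : ℝ)) = 0) :
    b.L lam α (b.ta lam α y θ σ υ) = b.ta lam α y θ (σ + 1) υ := by
  have h1 : b.β (y, σ, θ + α * σ) = b.β (y, Int.fract σ, θ + α * σ) := by
    have := b.β_add_s y (Int.fract σ) (θ + α * σ) ⌊σ⌋
    rw [Int.fract_add_floor] at this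
    exact this
  have h2 : b.β (y, Int.fract σ, θ + α * σ + α) = b.β (y, σ + 1, θ + α * (σ + 1)) := by
    have := b.β_add_s y (Int.fract σ) (θ + α * σ + α) (⌊σ⌋ + 1)
    rw [← this]
    congr 3
    · push_cast
      rw [← add_assoc, Int.fract_add_floor]
    · ring
  have h3 : θ + α * σ + α * (1 - Int.fract σ) = θ + α * ((⌊σ⌋ + 1 : ℤ) : ℝ) := by
    push_cast
    rw [show Int.fract σ = σ - ⌊σ⌋ from rfl]
    ring
  unfold ta
  rw [h1, b.L_β lam α (Int.fract_nonneg σ) (Int.fract_lt_one σ), h2, h3]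
  by_cases h4 : ⌊σ⌋ + 1 = 0
  · have h5 : ⌊σ⌋ = -1 := by omega
    have h6 := Int.floor_eq_iff.1 h5
    push_cast at h6
    rw [if_pos (by linarith : σ < 0), if_neg (by linarith : ¬ (σ + 1 < 0)), h4]
    simp
  · rw [h h4]
    rcases lt_or_ge σ 0 with h5 | h5
    · have h6 : σ + 1 < 0 := by
        have h7 : ⌊σ⌋ < 0 := Int.floor_lt.2 (by simpa using h5)
        have h8 : ⌊σ⌋ < -1 := by omega
        have h9 : σ < ((-1 : ℤ) : ℝ) := Int.floor_lt.1 h8
        push_cast at h9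
        linarith
      rw [if_pos h5, if_pos h6, add_zero]
    · rw [if_neg (not_lt.2 h5), if_neg (by linarith : ¬ (σ + 1 < 0)), add_zero]

theorem L_symm_ta (lam α : ℝ) (y : Y) (θ σ : ℝ) (υ : T)
    (h : ⌊σ⌋ ≠ 0 → D lam (b.ρ y) (θ + α * (⌊σ⌋ : ℝ)) = 0) :
    (b.L lam α).symm (b.ta lam α y θ σ υ) = b.ta lam α y θ (σ - 1) υ := by
  rw [Equiv.symm_apply_eq]
  have h1 := b.L_ta lam α y θ (σ - 1) υ
  rw [sub_add_cancel] at h1
  refine (h1 ?_).symm
  have h2 : ⌊σ - 1⌋ + 1 = ⌊σ⌋ := by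
    rw [Int.floor_sub_one]
    ring
  rw [h2]
  exact h

/-- injectivity of the line coordinates -/
theorem ta_inj {lam α d : ℝ} {y y' : Y} {θ θ' σ σ' : ℝ} {υ υ' : T} (hθ : |cr θ| ≤ d)
    (hθ' : |cr θ'| ≤ d) (hj : ∀ j : ℤ, j ≠ 0 → |(j : ℝ)| ≤ |σ - σ'| → 2 * d < |cr (α * j)|)
    (h : b.ta lam α y θ σ υ = b.ta lam α y' θ' σ' υ') :
    y = y' ∧ σ = σ' ∧ (∃ k : ℤ, θ' = θ + k) ∧ υ = υ' := by
  have h1 : b.β (y, σ, θ + α * σ) = b.β (y', σ', θ' + α * σ') := congrArg Prod.fst h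
  obtain ⟨rfl, ⟨j, hj'⟩, ⟨k, hk⟩⟩ := (b.β_eq _ _ _ _ _ _).1 h1
  have hj0 : j = 0 := by
    by_contra hne
    have h2 := hj j hne (by rw [hj']; simp [abs_neg])
    have h3 : α * (j : ℝ) = θ - θ' + k := by
      rw [hj'] at hk
      linarith
    rw [h3, cr_add_int] at h2
    have h4 := abs_cr_sub θ θ'
    linarith
  subst hj0
  have hσ : σ = σ' := by
    rw [hj']
    simp
  subst hσ
  have hθk : θ' = θ + k := by linarith
  refine ⟨rfl, rfl, ⟨k, hθk⟩, ?_⟩
  rw [hθk, b.ta_add_int] at h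
  have h5 := congrArg Prod.snd h
  exact sub_left_injective h5

/-- no twist at the neighbouring crossings -/
theorem cr_slope {α : ℝ} (h1 : 1 / 5 < α) (h2 : α < 1 / 3) {k : ℤ} (hk : k ≠ 0) (hk2 : -2 ≤ k)
    (hk3 : k ≤ 2) : 1 / 5 < |cr (α * k)| := by
  have h3 : |cr (α * 1)| = α := by
    rw [mul_one, cr_of_abs_lt, abs_of_pos (by linarith)]
    rw [abs_of_pos (by linarith)]
    linarith
  have h4 : 1 / 5 < |cr (α * 2)| := by
    rcases lt_or_ge α (1 / 4) with h | h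
    · rw [cr_of_abs_lt, abs_of_pos (by linarith)]
      · linarith
      · rw [abs_of_pos (by linarith)]
        linarith
    · have h5 : cr (α * 2) = cr (α * 2 - 1) := by
        have := cr_add_int (α * 2 - 1) 1
        push_cast at this
        rw [sub_add_cancel] at this
        exact this
      rcases eq_or_lt_of_le h with h6 | h6
      · have h7 : α * 2 = 1 / 2 := by linarith
        rw [h7]
        have h8 : |cr (1 / 2 : ℝ)| = 1 / 2 := by
          have h9 := abs_cr_le_half (1 / 2)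
          have h10 : cr (1 / 2 : ℝ) = 1 / 2 - 1 := by
            unfold cr
            rw [show round (1 / 2 : ℝ) = 1 by rw [round_eq]; norm_num]
            norm_num
          rw [h10]
          norm_num [abs_of_neg]
        rw [h8]
        norm_num
      · rw [h5, cr_of_abs_lt, abs_of_neg (by linarith)]
        · linarith
        · rw [abs_of_neg (by linarith)]
          linarith
  have h5 : k = -2 ∨ k = -1 ∨ k = 1 ∨ k = 2 := by omega
  rcases h5 with rfl | rfl | rfl | rfl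
  · push_cast
    rw [show α * (-2) = -(α * 2) by ring, abs_cr_neg]
    exact h4
  · push_cast
    rw [show α * (-1) = -(α * 1) by ring, abs_cr_neg, h3]
    exact h1
  · push_cast
    rw [h3]
    exact h1
  · push_cast
    exact h4

theorem D_near {lam α θ : ℝ} (hlam : 0 < lam) (hlam' : lam ≤ 1 / 20) (h1 : 1 / 5 < α)
    (h2 : α < 1 / 3) (hθ : |cr θ| ≤ 1 / 20) {k : ℤ} (hk : k ≠ 0) (hk2 : -2 ≤ k) (hk3 : k ≤ 2)
    (r : ℝ) : D lam r (θ + α * k) = 0 := by
  apply D_zero_of_le hlam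
  have h3 := cr_slope h1 h2 hk hk2 hk3
  have h4 := abs_cr_sub (θ + α * k) θ
  rw [add_sub_cancel_left] at h4
  linarith

/-- the time one map on short lines -/
theorem L_ta_short {lam α θ : ℝ} (hlam : 0 < lam) (hlam' : lam ≤ 1 / 20) (h1 : 1 / 5 < α)
    (h2 : α < 1 / 3) (hθ : |cr θ| ≤ 1 / 20) (y : Y) {σ : ℝ} (hσ : -3 ≤ σ) (hσ' : σ < 2) (υ : T) :
    b.L lam α (b.ta lam α y θ σ υ) = b.ta lam α y θ (σ + 1) υ := by
  apply b.L_ta
  intro h
  refine D_near hlam hlam' h1 h2 hθ h ?_ ?_ _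
  · have : (-3 : ℤ) ≤ ⌊σ⌋ := Int.le_floor.2 (by push_cast; exact hσ)
    omega
  · have : ⌊σ⌋ < 2 := Int.floor_lt.2 (by push_cast; exact hσ')
    omega

theorem L_symm_ta_short {lam α θ : ℝ} (hlam : 0 < lam) (hlam' : lam ≤ 1 / 20) (h1 : 1 / 5 < α)
    (h2 : α < 1 / 3) (hθ : |cr θ| ≤ 1 / 20) (y : Y) {σ : ℝ} (hσ : -2 ≤ σ) (hσ' : σ < 3) (υ : T) :
    (b.L lam α).symm (b.ta lam α y θ σ υ) = b.ta lam α y θ (σ - 1) υ := by
  rw [Equiv.symm_apply_eq]
  have := b.L_ta_short hlam hlam' h1 h2 hθ y (σ := σ - 1) (by linarith) (by linarith) υ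
  rw [sub_add_cancel] at this
  exact this.symm

/-- injectivity on short lines -/
theorem ta_inj_short {lam α : ℝ} (h1 : 1 / 5 < α) (h2 : α < 1 / 3) {y y' : Y} {θ θ' σ σ' : ℝ}
    {υ υ' : T} (hθ : |cr θ| ≤ 1 / 20) (hθ' : |cr θ'| ≤ 1 / 20) (hσ : |σ - σ'| < 3)
    (h : b.ta lam α y θ σ υ = b.ta lam α y' θ' σ' υ') :
    y = y' ∧ σ = σ' ∧ (∃ k : ℤ, θ' = θ + k) ∧ υ = υ' := by
  refine b.ta_inj hθ hθ' (fun j hj hj' => ?_) h
  have h3 : |(j : ℝ)| < 3 := lt_of_le_of_lt hj' hσ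
  rw [abs_lt] at h3
  have h4 : -3 < j := by exact_mod_cast h3.1
  have h5 : j < 3 := by exact_mod_cast h3.2
  have := cr_slope h1 h2 hj (by omega) (by omega)
  linarith

/-! ### the set `E` -/

theorem mem_E_iff (lam α : ℝ) (p : B × T) :
    p ∈ b.E ↔ ∃ y υ, ee (b.ρ y) 0 υ = 0 ∧ p = b.ta lam α y 0 0 υ := by
  have hcr : cr 0 = 0 := (cr_eq_zero_iff 0).2 ⟨0, by simp⟩
  constructor
  · rintro ⟨y, h1, h2, h3⟩
    refine ⟨y, p.2, ee_eq_zero_iff.2 ⟨hcr, h1, h3⟩, ?_⟩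
    rw [b.ta_of_nonneg lam α y _ le_rfl]
    simp [← h2]
  · rintro ⟨y, υ, h1, rfl⟩
    obtain ⟨-, h2, h3⟩ := ee_eq_zero_iff.1 h1
    rw [b.ta_of_nonneg lam α y _ le_rfl]
    exact ⟨y, h2, by simp, h3⟩

theorem ta_mem_E (lam α : ℝ) {y : Y} {θ : ℝ} {υ : T} (h : ee (b.ρ y) θ υ = 0) :
    b.ta lam α y θ 0 υ ∈ b.E := by
  rw [b.mem_E_iff lam α]
  obtain ⟨h1, -, -⟩ := ee_eq_zero_iff.1 h
  obtain ⟨k, rfl⟩ := (cr_eq_zero_iff θ).1 h1
  refine ⟨y, υ, ?_, ?_⟩
  · have := ee_add_int (b.ρ y) 0 υ k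
    rw [zero_add] at this
    rw [← this]
    exact h
  · have := b.ta_add_int lam α y 0 0 υ k
    rw [zero_add] at this
    exact this

theorem E_subset_tube (lam α : ℝ) {δ a c : ℝ} (hδ : 0 ≤ δ) (ha : a ≤ 0) (hc : 0 ≤ c) :
    b.E ⊆ b.tube lam α δ a c := by
  intro p hp
  obtain ⟨y, υ, h1, h2⟩ := (b.mem_E_iff lam α p).1 hp
  exact ⟨y, 0, 0, υ, h1.le.trans hδ, ha, hc, h2⟩

theorem tube_mono (lam α : ℝ) {δ δ' a a' c c' : ℝ} (hδ : δ ≤ δ') (ha : a' ≤ a) (hc : c ≤ c') :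
    b.tube lam α δ a c ⊆ b.tube lam α δ' a' c' := by
  rintro p ⟨y, θ, σ, υ, h1, h2, h3, h4⟩
  exact ⟨y, θ, σ, υ, h1.trans hδ, ha.trans h2, h3.trans hc, h4⟩

/-- a point off `Wm` has a crossing which is not near the frozen disc -/
theorem off_Wm {lam α δ : ℝ} (hδ : 0 < δ) {y : Y} {s θ : ℝ} {υ : T} (hs : 0 ≤ s) (hs' : s < 1)
    (h : (b.β (y, s, θ), υ) ∉ b.Wm lam α δ) :
    δ < |cr (θ + α * (1 - s))| ∨ δ < |b.ρ y| := by
  apply lt_ee_imp (υ := υ + D lam (b.ρ y) (θ + α * (1 - s)))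
  by_contra hcon
  rw [not_lt] at hcon
  apply h
  refine ⟨y, _, s - 1, _, hcon, by linarith, by linarith, b.rep_next lam α y hs' θ υ⟩

theorem off_Wt {lam α δ : ℝ} (hδ : 0 < δ) {y : Y} {s θ : ℝ} {υ : T} (hs : 0 ≤ s) (hs' : s < 1)
    (h : (b.β (y, s, θ), υ) ∉ b.Wt lam α δ) :
    δ < |cr (θ - α * s)| ∨ δ < |b.ρ y| := by
  apply lt_ee_imp (υ := υ)
  by_contra hcon
  rw [not_lt] at hcon
  apply h
  refine ⟨y, _, s, _, hcon, by linarith, by linarith, b.rep_prev lam α y hs θ υ⟩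

/-- tube inclusion for a change of the slope and a small turn -/
theorem tube_close {lam δ : ℝ} (hlam : 0 < lam) (hlam' : lam ≤ 1 / 20) (hδ : 0 < δ) :
    ∃ κ : ℝ, 0 < κ ∧ ∀ (y : Y) (θ' σ α α' : ℝ) (υ u : T), ee (b.ρ y) θ' υ ≤ κ → |σ| ≤ 3 →
      ‖u‖ ≤ κ → |α - α'| ≤ κ → ∃ θ υ', ee (b.ρ y) θ υ' ≤ δ ∧
        (b.β (y, σ, θ' + α' * σ), υ + u - if σ < 0 then D lam (b.ρ y) θ' else 0) =
          b.ta lam α y θ σ υ' := by
  have hm : 0 < min lam δ := lt_min hlam hδ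
  refine ⟨min (1 / 24) (min (δ / 6) (min lam δ * δ / 6)), by positivity, ?_⟩
  intro y θ' σ α α' υ u h1 h2 h3 h4
  set κ := min (1 / 24 : ℝ) (min (δ / 6) (min lam δ * δ / 6)) with hκ
  have hκ1 : κ ≤ 1 / 24 := min_le_left _ _
  have hκ2 : κ ≤ δ / 6 := (min_le_right _ _).trans (min_le_left _ _)
  have hκ3 : κ ≤ min lam δ * δ / 6 := (min_le_right _ _).trans (min_le_right _ _)
  obtain ⟨h5, h6, h7⟩ := ee_le_iff.1 h1
  have hy : |(α' - α) * σ| ≤ 3 * κ := by
    rw [abs_mul, abs_sub_comm, mul_comm 3 κ]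
    exact mul_le_mul h4 h2 (abs_nonneg _) (by linarith [abs_nonneg (α - α')])
  refine ⟨θ' + (α' - α) * σ,
    υ + u + if σ < 0 then D lam (b.ρ y) (θ' + (α' - α) * σ) - D lam (b.ρ y) θ' else 0, ?_, ?_⟩
  · refine ee_le_iff.2 ⟨?_, by linarith, ?_⟩
    · have := abs_cr_add θ' ((α' - α) * σ)
      have := abs_cr_le ((α' - α) * σ)
      linarith
    · rcases le_or_gt (b.ρ y) δ with hr | hr
      · exact Or.inr hr
      · left
        have h8 : ‖υ‖ ≤ κ := by
          rcases h7 with h7 | h7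
          · exact h7
          · linarith
        have h9 : ‖(if σ < 0 then D lam (b.ρ y) (θ' + (α' - α) * σ) - D lam (b.ρ y) θ'
            else (0 : T))‖ ≤ δ / 4 := by
          split_ifs
          · refine (D_lip hlam hlam' (hδ.trans hr) (by linarith)).trans ?_
            have h10 : min lam δ ≤ min lam (b.ρ y) := min_le_min_left _ hr.le
            rw [div_le_iff₀ (by linarith)]
            calc |(α' - α) * σ| ≤ 3 * (min lam δ * δ / 6) := by linarith
              _ = δ / 4 * (2 * min lam δ) := by ring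
              _ ≤ δ / 4 * (2 * min lam (b.ρ y)) := by gcongr
          · rw [norm_zero]
            positivity
        calc _ ≤ ‖υ + u‖ + _ := norm_add_le _ _
          _ ≤ ‖υ‖ + ‖u‖ + δ / 4 := add_le_add (norm_add_le _ _) h9
          _ ≤ δ := by linarith
  · unfold ta
    have h8 : θ' + α' * σ = θ' + (α' - α) * σ + α * σ := by ring
    rw [h8]
    congr 1
    split_ifs
    · abel
    · simp

end Base

end BaseLemmas

end Pool.Agent.EvenHomeo
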