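import Pool.Agent.Lib_helper30.EvenHomeo.Calc
import Pool.Agent.Lib_helper58.EvenHomeo.Frozen

/-!
# NHD: the box is a closed neighbourhood of `e`
-/

open Set Metric Topology

namespace Pool.Agent.EvenHomeo

variable {X : Type} [NormedAddCommGroup X] [NormedSpace ℝ X] {Y B : Type} [MetricSpace Y]
  [MetricSpace B] {M : Type} [MetricSpace M]

theorem nhd_ee_fract (r x a : ℝ) (υ : T) : ee r (Int.fract x + a) υ = ee r (x + a) υ := by
  have h := ee_add_int r (Int.fract x + a) υ ⌊x⌋
  rw [← h]
  congr 1
  have := Int.fract_add_floor x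
  linarith

theorem nhd_β_fract (b : Base X Y B) (y : Y) (s x : ℝ) :
    b.β (y, s, Int.fract x) = b.β (y, s, x) := by
  have := b.β_add_θ y s (Int.fract x) ⌊x⌋
  rw [Int.fract_add_floor] at this
  exact this.symm

theorem nhd [CompactSpace B] [CompactSpace M] (b : Base X Y B) (e : M) : Nhd_Stmt b M e := by
  intro lam α δ C hlam hlam' hα hα' hδ hδ'
  have hm : Continuous fun q : Y × ℝ × ℝ × T => ee (b.ρ q.1) (q.2.2.1 - α * q.2.1) q.2.2.2 := by
    have h : Continuous fun q : Y × ℝ × ℝ × T => (b.ρ q.1, q.2.2.1 - α * q.2.1, q.2.2.2) :=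
      (b.ρ_cont.comp continuous_fst).prodMk (by fun_prop)
    exact ee_continuous.comp h
  have hm2 : Continuous fun q : Y × ℝ × ℝ × T =>
      ee (b.ρ q.1) (q.2.2.1 - α * (q.2.1 + 1)) q.2.2.2 := by
    have h : Continuous fun q : Y × ℝ × ℝ × T =>
        (b.ρ q.1, q.2.2.1 - α * (q.2.1 + 1), q.2.2.2) :=
      (b.ρ_cont.comp continuous_fst).prodMk (by fun_prop)
    exact ee_continuous.comp h
  have hL : Continuous fun q : Y × ℝ × ℝ × T =>
      ee (b.ρ q.1) (q.2.2.1 + α * (1 - q.2.1))
        (q.2.2.2 + D lam (b.ρ q.1) (q.2.2.1 + α * (1 - q.2.1))) := by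
    have h : Continuous fun q : Y × ℝ × ℝ × T =>
        (b.ρ q.1, q.2.2.1 + α * (1 - q.2.1), q.2.2.2) :=
      (b.ρ_cont.comp continuous_fst).prodMk (by fun_prop)
    exact (eeL_continuous hlam hlam').comp h
  have hs : Continuous fun q : Y × ℝ × ℝ × T => q.2.1 := by fun_prop
  set Q : Set (Y × ℝ × ℝ × T) := {q | -(1 / 20) ≤ b.ρ q.1 ∧ (0 ≤ q.2.1 ∧ q.2.1 ≤ 1) ∧
      (0 ≤ q.2.2.1 ∧ q.2.2.1 ≤ 1)} with hQ
  have hQc : IsCompact Q := isCompact_cutDom b
  have hk : ContinuousOn (b.cut lam C.h) Q := C.kcont.mono fun q hq => hq.2.1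
  constructor
  · -- closed
    set K : Set (Y × ℝ × ℝ × T) :=
      {q | ee (b.ρ q.1) (q.2.2.1 - α * q.2.1) q.2.2.2 ≤ δ} ∪
      ({q | q.2.1 ≤ δ} ∩ {q | ee (b.ρ q.1) (q.2.2.1 - α * (q.2.1 + 1)) q.2.2.2 ≤ δ}) ∪
      ({q | 1 - δ ≤ q.2.1} ∩ {q | ee (b.ρ q.1) (q.2.2.1 + α * (1 - q.2.1))
        (q.2.2.2 + D lam (b.ρ q.1) (q.2.2.1 + α * (1 - q.2.1))) ≤ δ}) with hK
    have hKc : IsClosed K :=
      ((isClosed_le hm continuous_const).union
        ((isClosed_le hs continuous_const).inter (isClosed_le hm2 continuous_const))).union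
        ((isClosed_le continuous_const hs).inter (isClosed_le hL continuous_const))
    have hW : C.W α δ = b.cut lam C.h '' (Q ∩ K) := by
      apply Subset.antisymm
      · rintro _ ⟨_, ⟨y, θ, σ, υ, h1, h2, h3, rfl⟩, rfl⟩
        have hρ : -(1 / 20) ≤ b.ρ y := by
          have := neg_le_ee (b.ρ y) θ υ
          linarith
        rcases lt_or_ge σ 0 with h4 | h4
        · refine ⟨(y, σ + 1, Int.fract (θ + α * σ), υ - D lam (b.ρ y) θ),
            ⟨⟨hρ, ⟨by show 0 ≤ σ + 1; linarith, by show σ + 1 ≤ 1; linarith⟩,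
              ⟨Int.fract_nonneg _, (Int.fract_lt_one _).le⟩⟩, Or.inr ⟨?_, ?_⟩⟩, ?_⟩
          · show 1 - δ ≤ σ + 1
            linarith
          · show ee (b.ρ y) (Int.fract (θ + α * σ) + α * (1 - (σ + 1)))
              (υ - D lam (b.ρ y) θ +
                D lam (b.ρ y) (Int.fract (θ + α * σ) + α * (1 - (σ + 1)))) ≤ δ
            have h5 : Int.fract (θ + α * σ) + α * (1 - (σ + 1)) =
                θ + ((-⌊θ + α * σ⌋ : ℤ) : ℝ) := by
              have := Int.fract_add_floor (θ + α * σ)
              push_cast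
              linarith
            rw [h5, D_add_int, ee_add_int, sub_add_cancel]
            exact h1
          · unfold Base.cut
            simp only
            rw [if_pos (by linarith), add_zero, b.ta_of_neg lam α y θ h4, nhd_β_fract]
            have := b.β_add_s y σ (θ + α * σ) 1
            push_cast at this
            rw [this]
        · rcases lt_or_ge σ 1 with h5 | h5
          · refine ⟨(y, σ, Int.fract (θ + α * σ), υ),
              ⟨⟨hρ, ⟨h4, h5.le⟩, ⟨Int.fract_nonneg _, (Int.fract_lt_one _).le⟩⟩,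
                Or.inl (Or.inl ?_)⟩, ?_⟩
            · show ee (b.ρ y) (Int.fract (θ + α * σ) - α * σ) υ ≤ δ
              rw [sub_eq_add_neg, nhd_ee_fract, add_neg_cancel_right]
              exact h1
            · unfold Base.cut
              simp only
              rw [if_pos h5, add_zero, b.ta_of_nonneg lam α y θ h4, nhd_β_fract]
          · refine ⟨(y, σ - 1, Int.fract (θ + α * σ), υ),
              ⟨⟨hρ, ⟨by show 0 ≤ σ - 1; linarith, by show σ - 1 ≤ 1; linarith⟩,
                ⟨Int.fract_nonneg _, (Int.fract_lt_one _).le⟩⟩, Or.inl (Or.inr ⟨?_, ?_⟩)⟩, ?_⟩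
            · show σ - 1 ≤ δ
              linarith
            · show ee (b.ρ y) (Int.fract (θ + α * σ) - α * (σ - 1 + 1)) υ ≤ δ
              rw [sub_add_cancel, sub_eq_add_neg, nhd_ee_fract, add_neg_cancel_right]
              exact h1
            · unfold Base.cut
              simp only
              rw [if_pos (by linarith), add_zero, b.ta_of_nonneg lam α y θ h4, nhd_β_fract]
              have := b.β_add_s y (σ - 1) (θ + α * σ) 1
              push_cast at this
              rw [sub_add_cancel] at this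
              rw [this]
      · rintro _ ⟨⟨y, s, θ, υ⟩, ⟨⟨h1, ⟨h2, h3⟩, -⟩, hq⟩, rfl⟩
        simp only at h1 h2 h3
        rcases hq with (hq | ⟨hq1, hq2⟩) | ⟨hq1, hq2⟩
        · have hq' : ee (b.ρ y) (θ - α * s) υ ≤ δ := hq
          refine ⟨b.ta lam α y (θ - α * s) s υ, ⟨y, θ - α * s, s, υ, hq', by linarith, by linarith,
            rfl⟩, ?_⟩
          rw [b.ta_of_nonneg lam α y _ h2, sub_add_cancel]
          unfold Base.cut
          simp only
          rcases lt_or_eq_of_le h3 with h4 | h4
          · rw [if_pos h4, add_zero]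
          · subst h4
            have h5 : D lam (b.ρ y) θ = 0 := by
              have h6 := abs_cr_le_ee (b.ρ y) (θ - α * 1) υ
              have h7 := Base.D_near (θ := θ - α * 1) hlam hlam' hα hα' (by linarith)
                (k := 1) (by norm_num) (by norm_num) (by norm_num) (b.ρ y)
              push_cast at h7
              rwa [sub_add_cancel] at h7
            rw [h5]
            simp
        · have hq1' : s ≤ δ := hq1
          have hq2' : ee (b.ρ y) (θ - α * (s + 1)) υ ≤ δ := hq2
          refine ⟨b.ta lam α y (θ - α * (s + 1)) (s + 1) υ, ⟨y, θ - α * (s + 1), s + 1, υ, hq2',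
            by linarith, by linarith, rfl⟩, ?_⟩
          rw [b.ta_of_nonneg lam α y _ (by linarith), sub_add_cancel]
          unfold Base.cut
          simp only
          have h5 := b.β_add_s y s θ 1
          push_cast at h5
          rw [h5, if_pos (by linarith), add_zero]
        · have hq1' : 1 - δ ≤ s := hq1
          have hq2' : ee (b.ρ y) (θ + α * (1 - s))
            (υ + D lam (b.ρ y) (θ + α * (1 - s))) ≤ δ := hq2
          rcases lt_or_eq_of_le h3 with h4 | h4
          · refine ⟨(b.β (y, s, θ), υ), ⟨y, _, s - 1, _, hq2', by linarith, by linarith,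
              b.rep_next lam α y h4 θ υ⟩, ?_⟩
            unfold Base.cut
            simp only
            rw [if_pos h4, add_zero]
          · subst h4
            have h6 : θ + α * (1 - 1) = θ := by ring
            rw [h6] at hq2'
            refine ⟨b.ta lam α y θ 0 (υ + D lam (b.ρ y) θ), ⟨y, θ, 0, _, hq2', by linarith,
              by linarith, rfl⟩, ?_⟩
            rw [b.ta_of_nonneg lam α y _ le_rfl]
            unfold Base.cut
            simp only
            have h5 := b.β_add_s y 0 θ 1
            push_cast at h5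
            rw [zero_add] at h5
            rw [if_neg (lt_irrefl _), h5, mul_zero, add_zero]
    rw [hW]
    exact ((hQc.inter_right hKc).image_of_continuousOn (hk.mono inter_subset_left)).isClosed
  · -- neighbourhood
    set K' : Set (Y × ℝ × ℝ × T) :=
      ({q | δ ≤ q.2.1} ∪ {q | δ ≤ ee (b.ρ q.1) (q.2.2.1 - α * q.2.1) q.2.2.2}) ∩
      ({q | q.2.1 ≤ 1 - δ} ∪ {q | δ ≤ ee (b.ρ q.1) (q.2.2.1 + α * (1 - q.2.1))
        (q.2.2.2 + D lam (b.ρ q.1) (q.2.2.1 + α * (1 - q.2.1)))}) with hK'
    have hKc : IsClosed K' :=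
      ((isClosed_le continuous_const hs).union (isClosed_le continuous_const hm)).inter
        ((isClosed_le hs continuous_const).union (isClosed_le continuous_const hL))
    set O : Set (B × T) := {p | p.1 ∉ b.β '' {q | -(1 / 20) < b.ρ q.1}} with hO
    have hOc : IsClosed O := isClosed_outer b
    have houter : ∀ z, z ∉ b.β '' {q : Y × ℝ × ℝ | -(1 / 20) < b.ρ q.1} →
        z ∉ b.β '' {q : Y × ℝ × ℝ | 0 ≤ b.ρ q.1} := by
      rintro z hz ⟨q, hq, rfl⟩
      have hq' : (0 : ℝ) ≤ b.ρ q.1 := hq
      exact hz ⟨q, show -(1 / 20 : ℝ) < b.ρ q.1 by linarith, rfl⟩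
    have hh : ContinuousOn C.h O := fun p hp =>
      (C.ocont p.1 p.2 (houter _ hp)).continuousWithinAt
    have hZ : IsClosed (b.cut lam C.h '' (Q ∩ K') ∪ C.h '' O) :=
      ((hQc.inter_right hKc).image_of_continuousOn (hk.mono inter_subset_left)).isClosed.union
        (hOc.isCompact.image_of_continuousOn hh).isClosed
    have heZ : e ∉ b.cut lam C.h '' (Q ∩ K') ∪ C.h '' O := by
      rintro (⟨⟨y, s, θ, υ⟩, ⟨⟨-, ⟨h2, h3⟩, -⟩, hq1, hq2⟩, h4⟩ | ⟨p, hp, h4⟩)
      · simp only at h2 h3
        unfold Base.cut at h4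
        simp only at h4
        rw [C.hE] at h4
        obtain ⟨y', h5, h6, h7⟩ := h4
        obtain ⟨rfl, ⟨k, hk⟩, ⟨l, hl⟩⟩ := (b.β_eq _ _ _ _ _ _).1 h6
        have hcr : cr θ = 0 := (cr_eq_zero_iff θ).2 ⟨-l, by push_cast; linarith⟩
        have hsk : s = ((-k : ℤ) : ℝ) := by
          push_cast
          linarith
        have hk0 : (0 : ℤ) ≤ -k := by
          have : (0 : ℝ) ≤ ((-k : ℤ) : ℝ) := by rw [← hsk]; exact h2
          exact_mod_cast this
        have hk1 : -k ≤ (1 : ℤ) := by
          have : ((-k : ℤ) : ℝ) ≤ 1 := by rw [← hsk]; exact h3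
          exact_mod_cast this
        have hs01 : s = 0 ∨ s = 1 := by
          have : -k = 0 ∨ -k = 1 := by omega
          rcases this with h | h
          · left
            rw [hsk, h]
            simp
          · right
            rw [hsk, h]
            simp
        rcases hs01 with h8 | h8
        · subst h8
          rcases hq1 with hq1 | hq1
          · have : δ ≤ (0 : ℝ) := hq1
            linarith
          · have hq1' : δ ≤ ee (b.ρ y) (θ - α * 0) υ := hq1
            have h9 : ee (b.ρ y) (θ - α * 0) υ = 0 := by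
              rw [ee_eq_zero_iff]
              refine ⟨by simpa using hcr, h5, ?_⟩
              simpa using h7
            linarith
        · subst h8
          rcases hq2 with hq2 | hq2
          · have : (1 : ℝ) ≤ 1 - δ := hq2
            linarith
          · have hq2' : δ ≤ ee (b.ρ y) (θ + α * (1 - 1))
              (υ + D lam (b.ρ y) (θ + α * (1 - 1))) := hq2
            have h10 : θ + α * (1 - 1) = θ := by ring
            rw [h10] at hq2'
            have h9 : ee (b.ρ y) θ (υ + D lam (b.ρ y) θ) = 0 := by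
              rw [ee_eq_zero_iff]
              refine ⟨hcr, h5, ?_⟩
              simpa using h7
            linarith
      · have h5 := (C.hE p).1 h4
        obtain ⟨y', h6, h7, -⟩ := h5
        exact hp ⟨(y', 0, 0), show -(1 / 20 : ℝ) < b.ρ y' by linarith, h7.symm⟩
    have hsub : (b.cut lam C.h '' (Q ∩ K') ∪ C.h '' O)ᶜ ⊆ C.W α δ := by
      intro m hm'
      by_contra hmW
      apply hm'
      rcases cut_cover C m with ⟨q, hq1, hq2, hq3, rfl⟩ | ⟨z, υ, hz, rfl⟩
      · left
        refine ⟨q, ⟨⟨hq1, hq2, hq3⟩, ?_⟩, rfl⟩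
        obtain ⟨y, s, θ, υ⟩ := q
        simp only at hq1 hq2 hq3
        constructor
        · by_contra hcon
          rw [mem_union, not_or] at hcon
          obtain ⟨hc1, hc2⟩ := hcon
          have hc1' : s < δ := not_le.1 hc1
          have hc2' : ee (b.ρ y) (θ - α * s) υ < δ := not_le.1 hc2
          apply hmW
          refine ⟨(b.β (y, s, θ), υ), ⟨y, _, s, _, hc2'.le, by linarith [hq2.1], by linarith,
            b.rep_prev lam α y hq2.1 θ υ⟩, ?_⟩
          unfold Base.cut
          simp only
          rw [if_pos (by linarith), add_zero]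
        · by_contra hcon
          rw [mem_union, not_or] at hcon
          obtain ⟨hc1, hc2⟩ := hcon
          have hc1' : 1 - δ < s := not_le.1 hc1
          have hc2' : ee (b.ρ y) (θ + α * (1 - s))
              (υ + D lam (b.ρ y) (θ + α * (1 - s))) < δ := not_le.1 hc2
          apply hmW
          rcases lt_or_eq_of_le hq2.2 with h4 | h4
          · refine ⟨(b.β (y, s, θ), υ), ⟨y, _, s - 1, _, hc2'.le, by linarith, by linarith,
              b.rep_next lam α y h4 θ υ⟩, ?_⟩
            unfold Base.cut
            simp only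
            rw [if_pos h4, add_zero]
          · subst h4
            have h6 : θ + α * (1 - 1) = θ := by ring
            rw [h6] at hc2'
            refine ⟨b.ta lam α y θ 0 (υ + D lam (b.ρ y) θ), ⟨y, θ, 0, _, hc2'.le, by linarith,
              by linarith, rfl⟩, ?_⟩
            rw [b.ta_of_nonneg lam α y _ le_rfl]
            unfold Base.cut
            simp only
            have h5 := b.β_add_s y 0 θ 1
            push_cast at h5
            rw [zero_add] at h5
            rw [if_neg (lt_irrefl _), h5, mul_zero, add_zero]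
      · right
        exact ⟨(z, υ), hz, rfl⟩
    exact Filter.mem_of_superset (hZ.isOpen_compl.mem_nhds heZ) hsub

end Pool.Agent.EvenHomeo
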