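import Pool.Agent.Lib_helper30.EvenHomeo.Calc

/-!
# OFF and COMP
-/

open Set Metric Topology

namespace Pool.Agent.EvenHomeo

variable {X : Type} [NormedAddCommGroup X] [NormedSpace ℝ X] {Y B : Type} [MetricSpace Y]
  [MetricSpace B] {M : Type} [MetricSpace M]

/-- continuity through an open map -/
theorem off_continuousAt_of_comp {α β γ : Type} [TopologicalSpace α] [TopologicalSpace β]
    [TopologicalSpace γ] {g : α → β} {h : β → γ} {x : α} (hg : IsOpenMap g)
    (hc : ContinuousAt (fun a => h (g a)) x) : ContinuousAt h (g x) := by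
  intro V hV
  have h1 := hc hV
  have h2 := hg.image_mem_nhds h1
  rw [Filter.mem_map]
  refine Filter.mem_of_superset h2 ?_
  rintro _ ⟨a, ha, rfl⟩
  exact ha

/-- points off the sheet have no twist nearby -/
theorem off_D_zero (b : Base X Y B) {lam : ℝ} (hlam : 0 < lam) {y : Y} {θ : ℝ}
    (h : b.β (y, 0, θ) ∉ b.Sheet lam) :
    ∀ᶠ x : Y × ℝ in 𝓝 (y, θ), D lam (b.ρ x.1) x.2 = 0 := by
  have h1 : b.ρ y < 0 ∨ min lam (b.ρ y) < |cr θ| := by
    by_contra hcon
    rw [not_or, not_lt, not_lt] at hcon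
    exact h ⟨y, θ, hcon.1, hcon.2, rfl⟩
  have hρ : Continuous fun x : Y × ℝ => b.ρ x.1 := b.ρ_cont.comp continuous_fst
  rcases h1 with h1 | h1
  · have h2 : ∀ᶠ x : Y × ℝ in 𝓝 (y, θ), b.ρ x.1 < 0 :=
      hρ.continuousAt.eventually_lt continuousAt_const h1
    filter_upwards [h2] with x hx
    exact D_nonpos hx.le _
  · have h2 : ∀ᶠ x : Y × ℝ in 𝓝 (y, θ), min lam (b.ρ x.1) < |cr x.2| :=
      (continuous_const.min hρ).continuousAt.eventually_lt
        (cr_continuous_abs.comp continuous_snd).continuousAt h1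
    filter_upwards [h2] with x hx
    exact D_zero hlam hx.le

theorem off (b : Base X Y B) (e : M) : Off_Stmt b M e := by
  intro lam C hlam hlam' z υ hz
  by_cases hzρ : z ∈ b.β '' {q | 0 ≤ b.ρ q.1}
  swap
  · exact C.ocont z υ hzρ
  obtain ⟨q, -, hq⟩ := hzρ
  obtain ⟨y, s, θ, hs, hs', -, hrep⟩ := b.exists_rep (z := z) ⟨q, hq⟩
  subst hrep
  set g : Y × ℝ × ℝ × T → B × T := fun x => (b.β (x.1, x.2.1, x.2.2.1), x.2.2.2) with hg
  have hgo : IsOpenMap g := by
    have h1 : g = (Prod.map b.β id) ∘ (fun x : Y × ℝ × ℝ × T => ((x.1, x.2.1, x.2.2.1), x.2.2.2)) :=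
      rfl
    rw [h1]
    refine (b.β_open.prodMap IsOpenMap.id).comp ?_
    have e1 : (Y × ℝ × ℝ × T) ≃ₜ ((Y × ℝ × ℝ) × T) :=
      { toFun := fun x => ((x.1, x.2.1, x.2.2.1), x.2.2.2)
        invFun := fun x => (x.1.1, x.1.2.1, x.1.2.2, x.2)
        left_inv := fun x => rfl
        right_inv := fun x => rfl
        continuous_toFun := by fun_prop
        continuous_invFun := by fun_prop }
    have h2 : IsOpenMap (Homeomorph.mk
      { toFun := fun x : Y × ℝ × ℝ × T => ((x.1, x.2.1, x.2.2.1), x.2.2.2)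
        invFun := fun x => (x.1.1, x.1.2.1, x.1.2.2, x.2)
        left_inv := fun x => rfl
        right_inv := fun x => rfl } (by fun_prop) (by fun_prop)) := Homeomorph.isOpenMap _
    exact h2
  show ContinuousAt C.h (g (y, s, θ, υ))
  apply off_continuousAt_of_comp hgo
  rcases eq_or_lt_of_le hs with h0 | h0
  · -- on the cut
    subst h0
    have hD : ∀ᶠ x : Y × ℝ × ℝ × T in 𝓝 (y, (0 : ℝ), θ, υ), D lam (b.ρ x.1) x.2.2.1 = 0 := by
      have h1 : Filter.Tendsto (fun x : Y × ℝ × ℝ × T => (x.1, x.2.2.1))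
          (𝓝 (y, (0 : ℝ), θ, υ)) (𝓝 (y, θ)) := by
        have : Continuous fun x : Y × ℝ × ℝ × T => (x.1, x.2.2.1) := by fun_prop
        exact this.tendsto _
      exact h1.eventually (off_D_zero b hlam hz)
    have hD0 : D lam (b.ρ y) θ = 0 := by
      have := hD.self_of_nhds
      exact this
    -- right side
    have hR : ContinuousWithinAt (fun x => C.h (g x)) {x : Y × ℝ × ℝ × T | 0 ≤ x.2.1}
        (y, (0 : ℝ), θ, υ) := by
      have h1 := C.kcont (y, (0 : ℝ), θ, υ) ⟨le_rfl, zero_le_one⟩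
      have h2 : {q : Y × ℝ × ℝ × T | 0 ≤ q.2.1 ∧ q.2.1 ≤ 1} ∈
          𝓝[{x : Y × ℝ × ℝ × T | 0 ≤ x.2.1}] (y, (0 : ℝ), θ, υ) := by
        have h3 : ∀ᶠ x : Y × ℝ × ℝ × T in 𝓝 (y, (0 : ℝ), θ, υ), x.2.1 < 1 := by
          have : Continuous fun x : Y × ℝ × ℝ × T => x.2.1 := by fun_prop
          exact this.continuousAt.eventually_lt continuousAt_const zero_lt_one
        filter_upwards [self_mem_nhdsWithin, nhdsWithin_le_nhds h3] with x hx hx'
        exact ⟨hx, hx'.le⟩
      have h4 := h1.mono_of_mem_nhdsWithin h2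
      refine h4.congr_of_eventuallyEq ?_ ?_
      · have h3 : ∀ᶠ x : Y × ℝ × ℝ × T in 𝓝 (y, (0 : ℝ), θ, υ), x.2.1 < 1 := by
          have : Continuous fun x : Y × ℝ × ℝ × T => x.2.1 := by fun_prop
          exact this.continuousAt.eventually_lt continuousAt_const zero_lt_one
        filter_upwards [nhdsWithin_le_nhds h3] with x hx
        show C.h (g x) = b.cut lam C.h x
        unfold Base.cut
        rw [if_pos hx, add_zero]
      · show C.h (g (y, (0 : ℝ), θ, υ)) = b.cut lam C.h (y, (0 : ℝ), θ, υ)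
        unfold Base.cut
        simp [hg]
    -- left side
    have hL : ContinuousWithinAt (fun x => C.h (g x)) {x : Y × ℝ × ℝ × T | x.2.1 < 0}
        (y, (0 : ℝ), θ, υ) := by
      have h1 := C.kcont (y, (1 : ℝ), θ, υ) ⟨zero_le_one, le_rfl⟩
      set τ : Y × ℝ × ℝ × T → Y × ℝ × ℝ × T := fun x => (x.1, x.2.1 + 1, x.2.2.1, x.2.2.2) with hτ
      have hτc : Continuous τ := by
        rw [hτ]
        fun_prop
      have h5 : ContinuousWithinAt (b.cut lam C.h ∘ τ) {x : Y × ℝ × ℝ × T | -1 ≤ x.2.1 ∧ x.2.1 < 0}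
          (y, (0 : ℝ), θ, υ) := by
        have h6 : τ (y, (0 : ℝ), θ, υ) = (y, (1 : ℝ), θ, υ) := by simp [hτ]
        refine ContinuousWithinAt.comp (t := {q : Y × ℝ × ℝ × T | 0 ≤ q.2.1 ∧ q.2.1 ≤ 1}) ?_
          hτc.continuousWithinAt ?_
        · rw [h6]
          exact h1
        · rintro x ⟨hx, hx'⟩
          exact ⟨by simp [hτ]; linarith, by simp [hτ]; linarith⟩
      have h2 : {x : Y × ℝ × ℝ × T | -1 ≤ x.2.1 ∧ x.2.1 < 0} ∈
          𝓝[{x : Y × ℝ × ℝ × T | x.2.1 < 0}] (y, (0 : ℝ), θ, υ) := by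
        have h3 : ∀ᶠ x : Y × ℝ × ℝ × T in 𝓝 (y, (0 : ℝ), θ, υ), -1 < x.2.1 := by
          have : Continuous fun x : Y × ℝ × ℝ × T => x.2.1 := by fun_prop
          exact continuousAt_const.eventually_lt this.continuousAt (by norm_num)
        filter_upwards [self_mem_nhdsWithin, nhdsWithin_le_nhds h3] with x hx hx'
        exact ⟨hx'.le, hx⟩
      have h4 := h5.mono_of_mem_nhdsWithin h2
      refine h4.congr_of_eventuallyEq ?_ ?_
      · filter_upwards [self_mem_nhdsWithin] with x hx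
        have hx' : x.2.1 < 0 := hx
        show C.h (g x) = b.cut lam C.h (x.1, x.2.1 + 1, x.2.2.1, x.2.2.2)
        unfold Base.cut
        simp only
        rw [if_pos (by linarith), add_zero]
        have := b.β_add_s x.1 x.2.1 x.2.2.1 1
        push_cast at this
        rw [this]
      · show C.h (g (y, (0 : ℝ), θ, υ)) = b.cut lam C.h (y, (0 : ℝ) + 1, θ, υ)
        unfold Base.cut
        have := b.β_add_s y 0 θ 1
        push_cast at this
        simp only [hg]
        rw [this, if_neg (by norm_num), hD0, add_zero]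
    have hU := hR.union hL
    have huniv : {x : Y × ℝ × ℝ × T | 0 ≤ x.2.1} ∪ {x : Y × ℝ × ℝ × T | x.2.1 < 0} = univ := by
      ext x
      simp [le_or_gt]
    rw [huniv, continuousWithinAt_univ] at hU
    exact hU
  · -- interior
    have h1 := C.kcont (y, s, θ, υ) ⟨hs, hs'.le⟩
    have h2 : ∀ᶠ x : Y × ℝ × ℝ × T in 𝓝 (y, s, θ, υ), 0 < x.2.1 ∧ x.2.1 < 1 := by
      have : Continuous fun x : Y × ℝ × ℝ × T => x.2.1 := by fun_prop
      exact (continuousAt_const.eventually_lt this.continuousAt h0).and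
        (this.continuousAt.eventually_lt continuousAt_const hs')
    have h3 : {q : Y × ℝ × ℝ × T | 0 ≤ q.2.1 ∧ q.2.1 ≤ 1} ∈ 𝓝 (y, s, θ, υ) := by
      filter_upwards [h2] with x hx
      exact ⟨hx.1.le, hx.2.le⟩
    have h4 := h1.continuousAt h3
    refine h4.congr ?_
    filter_upwards [h2] with x hx
    show b.cut lam C.h x = C.h (g x)
    unfold Base.cut
    rw [if_pos hx.2, add_zero]

theorem comp (b : Base X Y B) (e : M) (hoff : Off_Stmt b M e) : Comp_Stmt b M e := by
  intro lam C A O hlam hlam' hO hSO hA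
  have hback : ∀ p : B × T, (A p).1 ∈ b.Sheet lam → A p = p := by
    intro p hp
    have h1 := hA (A p) (hSO hp)
    exact A.injective h1
  have hEsheet : ∀ p ∈ b.E, p.1 ∈ b.Sheet lam := by
    rintro p ⟨y, h1, h2, -⟩
    refine ⟨y, 0, h1, ?_, h2⟩
    have : cr 0 = 0 := (cr_eq_zero_iff 0).2 ⟨0, by simp⟩
    rw [this, abs_zero]
    exact le_min hlam.le h1
  have hcomp : ∀ z υ, z ∉ b.Sheet lam → ContinuousAt (fun p => C.h (A p)) (z, υ) := by
    intro z υ hz
    have h1 : (A (z, υ)).1 ∉ b.Sheet lam := by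
      intro h
      have h2 := hback _ h
      rw [h2] at h
      exact hz h
    have h2 := hoff lam C hlam hlam' (A (z, υ)).1 (A (z, υ)).2 h1
    exact ContinuousAt.comp (g := C.h) (f := A) h2 A.continuous.continuousAt
  refine ⟨{ h := fun p => C.h (A p), surj := ?_, hE := ?_, inj := ?_, kcont := ?_, ocont := ?_ },
    fun p => rfl⟩
  · exact C.surj.comp A.surjective
  · intro p
    rw [C.hE]
    constructor
    · intro h
      have := hback p (hEsheet _ h)
      rwa [this] at h
    · intro h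
      rw [hA p (hSO (hEsheet p h))]
      exact h
  · intro p p' h
    rcases C.inj _ _ h with h1 | h1
    · exact Or.inl (A.injective h1)
    · exact Or.inr h1
  · rintro ⟨y, s, θ, υ⟩ ⟨hs, hs'⟩
    simp only at hs hs'
    by_cases hz : b.β (y, s, θ) ∈ O
    · have h1 := C.kcont (y, s, θ, υ) ⟨hs, hs'⟩
      have h2 : ∀ᶠ x : Y × ℝ × ℝ × T in 𝓝 (y, s, θ, υ), b.β (x.1, x.2.1, x.2.2.1) ∈ O := by
        have : Continuous fun x : Y × ℝ × ℝ × T => b.β (x.1, x.2.1, x.2.2.1) :=
          b.β_cont.comp (by fun_prop)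
        exact this.continuousAt.eventually (hO.mem_nhds hz)
      have h3 : ∀ x : Y × ℝ × ℝ × T, b.β (x.1, x.2.1, x.2.2.1) ∈ O →
          b.cut lam (fun p => C.h (A p)) x = b.cut lam C.h x := by
        intro x hx
        unfold Base.cut
        have h5 := hA (b.β (x.1, x.2.1, x.2.2.1),
          x.2.2.2 + if x.2.1 < 1 then 0 else D lam (b.ρ x.1) x.2.2.1) hx
        show C.h (A _) = _
        rw [h5]
      refine h1.congr_of_eventuallyEq ?_ (h3 _ hz)
      filter_upwards [nhdsWithin_le_nhds h2] with x hx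
      exact h3 x hx
    · have hz' : b.β (y, s, θ) ∉ b.Sheet lam := fun h => hz (hSO h)
      have h1 := hcomp (b.β (y, s, θ)) υ hz'
      have h2 : ContinuousAt (fun x : Y × ℝ × ℝ × T =>
          C.h (A (b.β (x.1, x.2.1, x.2.2.1), x.2.2.2))) (y, s, θ, υ) := by
        have h4 : Continuous fun x : Y × ℝ × ℝ × T => (b.β (x.1, x.2.1, x.2.2.1), x.2.2.2) :=
          (b.β_cont.comp (by fun_prop)).prodMk (by fun_prop)
        exact ContinuousAt.comp (g := fun p => C.h (A p))
          (f := fun x : Y × ℝ × ℝ × T => (b.β (x.1, x.2.1, x.2.2.1), x.2.2.2)) h1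
          h4.continuousAt
      have h5 : ∀ᶠ x : Y × ℝ × ℝ × T in 𝓝 (y, s, θ, υ),
          (if x.2.1 < 1 then (0 : T) else D lam (b.ρ x.1) x.2.2.1) = 0 := by
        rcases lt_or_eq_of_le hs' with h6 | h6
        · have h7 : ∀ᶠ x : Y × ℝ × ℝ × T in 𝓝 (y, s, θ, υ), x.2.1 < 1 := by
            have : Continuous fun x : Y × ℝ × ℝ × T => x.2.1 := by fun_prop
            exact this.continuousAt.eventually_lt continuousAt_const h6
          filter_upwards [h7] with x hx
          rw [if_pos hx]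
        · have h7 : b.β (y, 0, θ) ∉ b.Sheet lam := by
            have h8 := b.β_add_s y 0 θ 1
            push_cast at h8
            rw [zero_add, ← h6] at h8
            rwa [← h8]
          have h9 : Filter.Tendsto (fun x : Y × ℝ × ℝ × T => (x.1, x.2.2.1))
              (𝓝 (y, s, θ, υ)) (𝓝 (y, θ)) := by
            have : Continuous fun x : Y × ℝ × ℝ × T => (x.1, x.2.2.1) := by fun_prop
            exact this.tendsto _
          filter_upwards [h9.eventually (off_D_zero b hlam h7)] with x hx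
          split_ifs
          · rfl
          · exact hx
      refine (h2.congr ?_).continuousWithinAt
      filter_upwards [h5] with x hx
      unfold Base.cut
      rw [hx, add_zero]
  · intro z υ hz
    refine hcomp z υ fun h => hz ?_
    obtain ⟨y, θ, h1, -, h2⟩ := h
    exact ⟨(y, 0, θ), h1, h2.symm⟩

end Pool.Agent.EvenHomeo
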