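import Pool.Agent.Lib_helper30.EvenHomeo.Calc

/-!
# SLAB: the invariant slab of the classical step
-/

open Set Metric Topology

namespace Pool.Agent.EvenHomeo

variable {X : Type} [NormedAddCommGroup X] [NormedSpace ℝ X] {Y B : Type} [MetricSpace Y]
  [MetricSpace B]

namespace Base

variable (b : Base X Y B)

theorem mem_slab_iff (p q : ℕ) (w : ℝ) (y : Y) (s θ : ℝ) :
    b.β (y, s, θ) ∈ b.slab p q w ↔ -(1 / 20) ≤ b.ρ y ∧ |cr (q * θ - p * s)| ≤ q * w := by
  constructor
  · rintro ⟨y', s', θ', h1, h2, h3⟩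
    obtain ⟨rfl, ⟨k, hk⟩, ⟨l, hl⟩⟩ := (b.β_eq _ _ _ _ _ _).1 h1
    refine ⟨h2, ?_⟩
    have h4 : q * θ' - p * s' = (q * θ - p * s) + ((q * l - p * k : ℤ) : ℝ) := by
      rw [hk, hl]
      push_cast
      ring
    rwa [h4, cr_add_int] at h3
  · rintro ⟨h1, h2⟩
    exact ⟨y, s, θ, rfl, h1, h2⟩

theorem slab_closed (p q : ℕ) (w : ℝ) : IsClosed (b.slab p q w) := by
  have hK : IsCompact (({y | -(1 / 20) ≤ b.ρ y} ×ˢ (Icc (0 : ℝ) 1 ×ˢ Icc (0 : ℝ) 1)) ∩
      {x : Y × ℝ × ℝ | |cr (q * x.2.2 - p * x.2.1)| ≤ q * w}) := by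
    refine (b.ρ_cpt.prod (isCompact_Icc.prod isCompact_Icc)).inter_right ?_
    exact isClosed_le (cr_continuous_abs.comp (by fun_prop)) continuous_const
  have h1 : b.slab p q w = b.β '' (({y | -(1 / 20) ≤ b.ρ y} ×ˢ (Icc (0 : ℝ) 1 ×ˢ Icc (0 : ℝ) 1)) ∩
      {x : Y × ℝ × ℝ | |cr (q * x.2.2 - p * x.2.1)| ≤ q * w}) := by
    apply Subset.antisymm
    · rintro z ⟨y, s, θ, rfl, h2, h3⟩
      refine ⟨(y, Int.fract s, Int.fract θ), ⟨⟨h2, ⟨Int.fract_nonneg s, (Int.fract_lt_one s).le⟩,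
        ⟨Int.fract_nonneg θ, (Int.fract_lt_one θ).le⟩⟩, ?_⟩, ?_⟩
      · have h4 : q * Int.fract θ - p * Int.fract s =
            (q * θ - p * s) + ((p * ⌊s⌋ - q * ⌊θ⌋ : ℤ) : ℝ) := by
          unfold Int.fract
          push_cast
          ring
        show |cr (q * Int.fract θ - p * Int.fract s)| ≤ q * w
        rw [h4, cr_add_int]
        exact h3
      · rw [b.β_eq]
        exact ⟨rfl, ⟨⌊s⌋, (Int.fract_add_floor s).symm⟩, ⟨⌊θ⌋, (Int.fract_add_floor θ).symm⟩⟩
    · rintro z ⟨⟨y, s, θ⟩, ⟨⟨h2, -, -⟩, h3⟩, rfl⟩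
      exact ⟨y, s, θ, rfl, h2, h3⟩
  rw [h1]
  exact (hK.image b.β_cont).isClosed

theorem slab_R {p q : ℕ} (hq : 1 ≤ q) (w : ℝ) (z : B) :
    b.R (1 / (q : ℝ)) z ∈ b.slab p q w ↔ z ∈ b.slab p q w := by
  have hq0 : (q : ℝ) ≠ 0 := by
    have : 0 < q := hq
    positivity
  by_cases hz : z ∈ range b.β
  · obtain ⟨⟨y, s, θ⟩, rfl⟩ := hz
    rw [b.R_β, b.mem_slab_iff, b.mem_slab_iff]
    have h4 : q * (θ + 1 / (q : ℝ)) - p * s = (q * θ - p * s) + ((1 : ℤ) : ℝ) := by
      push_cast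
      field_simp
      ring
    rw [h4, cr_add_int]
  · have h1 : z ∉ b.slab p q w := by
      rintro ⟨y, s, θ, rfl, -, -⟩
      exact hz (mem_range_self _)
    have h2 : b.R (1 / (q : ℝ)) z ∉ b.slab p q w := by
      rintro ⟨y, s, θ, h, -, -⟩
      refine hz ((b.R_range_iff (1 / (q : ℝ)) z).1 ?_)
      rw [h]
      exact mem_range_self _
    exact ⟨fun h => absurd h h2, fun h => absurd h h1⟩

theorem abs_cr_nat_mul (q : ℕ) (x : ℝ) : |cr (q * x)| ≤ q * |cr x| := by
  rw [abs_cr, abs_cr]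
  have : (((q : ℝ) * x : ℝ) : T) = q • (x : T) := by
    rw [← AddCircle.coe_nsmul, nsmul_eq_mul]
  rw [this]
  exact norm_nsmul_le

theorem sheet_subset_slab (lam : ℝ) (p q : ℕ) : b.Sheet lam ⊆ b.slab p q lam := by
  rintro z ⟨y, θ, h1, h2, rfl⟩
  rw [b.mem_slab_iff]
  refine ⟨by linarith, ?_⟩
  rw [mul_zero, sub_zero]
  refine (abs_cr_nat_mul q θ).trans ?_
  exact mul_le_mul_of_nonneg_left (h2.trans (min_le_left _ _)) (Nat.cast_nonneg q)

theorem slab_mono (p q : ℕ) {w w' : ℝ} (h : w ≤ w') : b.slab p q w ⊆ b.slab p q w' := by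
  rintro z ⟨y, s, θ, h1, h2, h3⟩
  exact ⟨y, s, θ, h1, h2, h3.trans (mul_le_mul_of_nonneg_left h (Nat.cast_nonneg q))⟩

theorem exists_R_notMem_slab {p q : ℕ} (hq : 1 ≤ q) {w : ℝ} (hw : 2 * (q : ℝ) * w < 1) (z : B) :
    ∃ t, b.R t z ∉ b.slab p q w := by
  have hq0 : (q : ℝ) ≠ 0 := by
    have : 0 < q := hq
    positivity
  by_cases hz : z ∈ range b.β
  · obtain ⟨⟨y, s, θ⟩, rfl⟩ := hz
    refine ⟨(1 / 2 + p * s) / q - θ, ?_⟩
    rw [b.R_β, b.mem_slab_iff]
    rintro ⟨-, h2⟩
    have h3 : q * (θ + ((1 / 2 + p * s) / q - θ)) - p * s = 1 / 2 := by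
      field_simp
      ring
    rw [h3] at h2
    have h4 : |cr (1 / 2 : ℝ)| = 1 / 2 := by
      have h10 : cr (1 / 2 : ℝ) = 1 / 2 - 1 := by
        unfold cr
        rw [show round (1 / 2 : ℝ) = 1 by rw [round_eq]; norm_num]
        norm_num
      rw [h10]
      norm_num [abs_of_neg]
    rw [h4] at h2
    linarith
  · refine ⟨0, ?_⟩
    rw [b.R_zero]
    rintro ⟨y, s, θ, rfl, -, -⟩
    exact hz (mem_range_self _)

theorem slab_compl_preconnected {p q : ℕ} (hq : 1 ≤ q) (hpq : Nat.Coprime p q) {w : ℝ}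
    (hw0 : 0 ≤ w) (hw : 2 * (q : ℝ) * w < 1) : IsPreconnected (b.slab p q w)ᶜ := by
  have hq0 : (0 : ℝ) < q := by
    have : 0 < q := hq
    positivity
  have hbez : ∀ k : ℤ, ∃ a c : ℤ, (q : ℤ) * c - p * a = k := by
    intro k
    have h4 : IsCoprime (q : ℤ) (p : ℤ) := by
      rw [Int.isCoprime_iff_gcd_eq_one]
      simpa [Int.gcd, Nat.gcd_comm] using hpq
    obtain ⟨u, v, huv⟩ := h4
    refine ⟨-(v * k), u * k, ?_⟩
    calc (q : ℤ) * (u * k) - p * (-(v * k)) = (u * q + v * p) * k := by ring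
      _ = k := by rw [huv, one_mul]
  -- the basic strip
  set S₀ : Set (Y × ℝ × ℝ) :=
    univ ×ˢ {x : ℝ × ℝ | q * w < q * x.2 - p * x.1 ∧ q * x.2 - p * x.1 < 1 - q * w} with hS₀
  have hS₀c : IsPreconnected S₀ := by
    refine b.Y_conn.prod (Convex.isPreconnected ?_)
    have h1 : Convex ℝ {x : ℝ × ℝ | q * w < q * x.2 - p * x.1} := by
      have : IsLinearMap ℝ fun x : ℝ × ℝ => q * x.2 - p * x.1 := by
        constructor
        · intro x y
          simp only [Prod.fst_add, Prod.snd_add]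
          ring
        · intro c x
          simp only [Prod.smul_fst, Prod.smul_snd, smul_eq_mul]
          ring
      exact convex_halfSpace_gt this _
    have h2 : Convex ℝ {x : ℝ × ℝ | q * x.2 - p * x.1 < 1 - q * w} := by
      have : IsLinearMap ℝ fun x : ℝ × ℝ => q * x.2 - p * x.1 := by
        constructor
        · intro x y
          simp only [Prod.fst_add, Prod.snd_add]
          ring
        · intro c x
          simp only [Prod.smul_fst, Prod.smul_snd, smul_eq_mul]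
          ring
      exact convex_halfSpace_lt this _
    exact h1.inter h2
  have hP : IsPreconnected (b.β '' S₀) := hS₀c.image _ b.β_cont.continuousOn
  -- points with large `cr` are in the image of the strip
  have hstrip : ∀ y s θ, q * w < |cr (q * θ - p * s)| → b.β (y, s, θ) ∈ b.β '' S₀ := by
    intro y s θ h
    -- translate into the strip
    set t := q * θ - p * s with ht
    obtain ⟨a, c, hac⟩ := hbez (-⌊t⌋)
    have hac' : (q : ℝ) * c - p * a = -(⌊t⌋ : ℝ) := by exact_mod_cast hac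
    refine ⟨(y, s + a, θ + c), ⟨mem_univ _, ?_⟩, ?_⟩
    · show q * w < q * (θ + c) - p * (s + a) ∧ q * (θ + c) - p * (s + a) < 1 - q * w
      have h5 : q * (θ + c) - p * (s + a) = Int.fract t := by
        unfold Int.fract
        rw [ht] at hac' ⊢
        linarith
      rw [h5]
      have h6 : |cr (Int.fract t)| = |cr t| := by
        have : t = Int.fract t + (⌊t⌋ : ℤ) := (Int.fract_add_floor t).symm
        rw [this, cr_add_int, ← this]
      rw [← h6] at h
      have h7 := abs_cr_le_sub (Int.fract t) 0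
      have h8 := abs_cr_le_sub (Int.fract t) 1
      have h9 := Int.fract_nonneg t
      have h10 := (Int.fract_lt_one t).le
      rw [Int.cast_zero, sub_zero, abs_of_nonneg h9] at h7
      have h11 : |Int.fract t - ((1 : ℤ) : ℝ)| = 1 - Int.fract t := by
        rw [Int.cast_one, abs_of_nonpos (by linarith)]
        ring
      rw [h11] at h8
      constructor <;> linarith
    · rw [b.β_eq]
      refine ⟨rfl, ⟨-a, by push_cast; ring⟩, ⟨-c, by push_cast; ring⟩⟩
  have hsub : b.β '' S₀ ⊆ (b.slab p q w)ᶜ := by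
    rintro z ⟨⟨y, s, θ⟩, ⟨-, h1, h2⟩, rfl⟩ hz
    rw [b.mem_slab_iff] at hz
    obtain ⟨-, h3⟩ := hz
    simp only at h1 h2
    have h4 : |cr (q * θ - p * s)| = min (q * θ - p * s) (1 - (q * θ - p * s)) := by
      have h5 : 0 < q * θ - p * s := lt_of_le_of_lt (by positivity) h1
      have h6 : q * θ - p * s < 1 := by
        have : 0 ≤ q * w := by positivity
        linarith
      rcases lt_or_ge (q * θ - p * s) (1 / 2) with h7 | h7
      · rw [cr_of_abs_lt (by rw [abs_of_pos h5]; exact h7), abs_of_pos h5, min_eq_left (by linarith)]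
      · rw [min_eq_right (by linarith)]
        unfold cr
        have h8 : round (q * θ - p * s) = 1 := by
          rw [round_eq, Int.floor_eq_iff]
          push_cast
          constructor <;> linarith
        rw [h8]
        push_cast
        rw [abs_of_neg (by linarith)]
        ring
    rw [h4] at h3
    rcases min_le_iff.1 h3 with h5 | h5 <;> linarith
  -- the part in the range of the chart
  have hU : IsPreconnected ((b.slab p q w)ᶜ ∩ range b.β) := by
    by_cases hne : ((b.slab p q w)ᶜ ∩ range b.β).Nonempty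
    swap
    · rw [not_nonempty_iff_eq_empty] at hne
      rw [hne]
      exact isPreconnected_empty
    -- a base point in the strip
    obtain ⟨z₁, -, ⟨⟨y₁, s₁, θ₁⟩, rfl⟩⟩ := hne
    have hbase : b.β (y₁, s₁, (1 / 2 + p * s₁) / q) ∈ b.β '' S₀ := by
      refine ⟨_, ⟨mem_univ _, ?_⟩, rfl⟩
      show q * w < q * ((1 / 2 + p * s₁) / q) - p * s₁ ∧
        q * ((1 / 2 + p * s₁) / q) - p * s₁ < 1 - q * w
      have : q * ((1 / 2 + p * s₁) / q) - p * s₁ = 1 / 2 := by
        field_simp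
        ring
      rw [this]
      constructor <;> linarith
    refine isPreconnected_of_forall (b.β (y₁, s₁, (1 / 2 + p * s₁) / q)) ?_
    rintro z ⟨hz, ⟨⟨y, s, θ⟩, rfl⟩⟩
    rcases lt_or_ge (q * w) |cr (q * θ - p * s)| with h | h
    · exact ⟨b.β '' S₀, subset_inter hsub (image_subset_range _ _), hbase, hstrip y s θ h, hP⟩
    · have hρ : b.ρ y < -(1 / 20) := by
        by_contra hcon
        exact hz ((b.mem_slab_iff p q w y s θ).2 ⟨not_lt.1 hcon, h⟩)
      have hline : IsPreconnected (range fun t : ℝ => b.β (y, s, t)) :=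
        isPreconnected_range (b.β_cont.comp (by fun_prop))
      have hmid : b.β (y, s, (1 / 2 + p * s) / q) ∈ b.β '' S₀ := by
        refine ⟨_, ⟨mem_univ _, ?_⟩, rfl⟩
        show q * w < q * ((1 / 2 + p * s) / q) - p * s ∧
          q * ((1 / 2 + p * s) / q) - p * s < 1 - q * w
        have : q * ((1 / 2 + p * s) / q) - p * s = 1 / 2 := by
          field_simp
          ring
        rw [this]
        constructor <;> linarith
      refine ⟨b.β '' S₀ ∪ range fun t : ℝ => b.β (y, s, t), ?_, Or.inl hbase,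
        Or.inr ⟨θ, rfl⟩, ?_⟩
      · rintro x (hx | ⟨t, rfl⟩)
        · exact ⟨hsub hx, image_subset_range _ _ hx⟩
        · refine ⟨fun hx => ?_, mem_range_self _⟩
          rw [b.mem_slab_iff] at hx
          linarith [hx.1]
      · exact hP.union (b.β (y, s, (1 / 2 + p * s) / q)) hmid ⟨_, rfl⟩ hline
  refine hU.subset_closure inter_subset_left ?_
  have hopen : IsOpen (b.slab p q w)ᶜ := (b.slab_closed p q w).isOpen_compl
  have := b.β_dense.open_subset_closure_inter hopen
  exact this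

end Base

end Pool.Agent.EvenHomeo
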