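import Pool.Agent.Lib_helper30.EvenHomeo.LastE
import Pool.Agent.Lib_helper34.EvenHomeo.Scheme
import Pool.Agent.Lib_helper30.EvenHomeo.Off
import Pool.Agent.Lib_helper58.EvenHomeo.Frozen
import Pool.Agent.Lib_helper58.EvenHomeo.KMap
import Pool.Agent.Lib_helper30.EvenHomeo.Nhd
import Pool.Agent.Lib_helper21.EvenHomeo.Drift
import Pool.Agent.Lib_helper79.EvenHomeo.Modulus
import Pool.Agent.Lib_helper93.EvenHomeo.Small
import Pool.Agent.Lib_helper93.EvenHomeo.AKFine
import Pool.Agent.Lib_helper74.EvenHomeo.Coh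
import Pool.Agent.Lib_helper74.EvenHomeo.Transport
import Pool.Agent.Lib_helper73.EvenHomeo.Shift
import Pool.Agent.Lib_helper33.EvenHomeo.Thin
import Pool.Agent.Lib_helper53.EvenHomeo.HitRel
import Pool.Agent.Lib_helper53.EvenHomeo.AK
import Pool.Agent.Lib_helper69.EvenHomeo.AKHits
import Pool.Agent.Lib_helper76.EvenHomeo.Push
import Pool.Agent.Lib_helper76.EvenHomeo.Freeze
import Pool.Agent.Lib_helper32.EvenHomeo.Space

/-!
# The even dimensional case
-/

open Set Metric Topology

namespace Pool.Agent.EvenHomeo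

theorem evenDims : ∀ k : ℕ,
    ∃ f : EuclideanSpace ℝ (Fin (2 * k + 4)) ≃ₜ EuclideanSpace ℝ (Fin (2 * k + 4)),
      ∀ x, Dense (range fun j : ℤ => (f ^ j) x) := by
  refine even_dims scheme ?_ ?_ ?_ ?_ space
  · intro X Y B M _ _ _ _ _ _ _ b e
    exact nhd b e
  · intro X Y B M _ _ _ _ _ _ _ _ b e
    exact propA_stages b e (off b e) (thin b e (shift b e coh) (urex b e)) (frozen b e)
      (ak b e (hitRel transport b.toRotChart) (drift b) (comp b e (off b e))
        (akFine b e (off b e) (urex b e)) (akHits b e) (frozen b e))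
  · intro X Y B M _ _ _ _ _ _ _ b e
    exact propB_stages b e (ucex b e) (thin b e (shift b e coh) (urex b e)) (frozen b e)
      (freeze b e push (kmap b transport) (comp b e (off b e)) (small b e) (frozen b e))
  · intro X Y B M _ _ _ _ _ _ _ b e
    exact frozen b e

end Pool.Agent.EvenHomeo
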