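import Pool.Agent.Lib_helper30.EvenHomeo.Assembly

/-!
# LASTE: from `M` to Euclidean space
-/

open Set Metric Topology

namespace Pool.Agent.EvenHomeo

section

variable {M E : Type} [TopologicalSpace M] [TopologicalSpace E]

/-- restriction to the complement of a fixed point, through a chart -/
noncomputable def laste (e : M) (φ : {x : M // x ≠ e} ≃ₜ E) (f : M ≃ₜ M) (hfe : f e = e) : E ≃ₜ E :=
  (φ.symm.trans (f.subtype (p := fun x => x ≠ e) (q := fun x => x ≠ e) fun x => by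
    constructor
    · intro h h'
      exact h (f.injective (h'.trans hfe.symm))
    · intro h h'
      exact h (by rw [h', hfe]))).trans φ

theorem laste_apply (e : M) (φ : {x : M // x ≠ e} ≃ₜ E) (f : M ≃ₜ M) (hfe : f e = e) (y : E) :
    ((φ.symm (laste e φ f hfe y) : {x : M // x ≠ e}) : M) = f (φ.symm y : {x : M // x ≠ e}) := by
  unfold laste
  simp

theorem laste_iter (e : M) (φ : {x : M // x ≠ e} ≃ₜ E) (f : M ≃ₜ M) (hfe : f e = e) (k : ℕ)
    (y : E) :
    ((φ.symm ((laste e φ f hfe ^ k) y) : {x : M // x ≠ e}) : M) =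
      (⇑f)^[k] (φ.symm y : {x : M // x ≠ e}) := by
  induction k with
  | zero => rfl
  | succ k ih =>
    rw [pow_succ', Function.iterate_succ_apply', ← ih]
    exact laste_apply e φ f hfe _

theorem laste_dense (e : M) (φ : {x : M // x ≠ e} ≃ₜ E) (f : M ≃ₜ M) (hfe : f e = e)
    (ho : IsOpen {x : M | x ≠ e})
    (hf : ∀ x, x ≠ e → ∀ U : Set M, IsOpen U → U.Nonempty →
        ∃ k : ℕ, (⇑f)^[k] x ∈ U ∨ (⇑f.symm)^[k] x ∈ U) (y : E) :
    Dense (range fun k : ℤ => ((laste e φ f hfe) ^ k) y) := by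
  have hfe' : f.symm e = e := by
    have := congrArg f.symm hfe
    rw [f.symm_apply_apply] at this
    exact this.symm
  have hinv : (laste e φ f hfe)⁻¹ = laste e φ f.symm hfe' := by
    ext y
    rfl
  rw [dense_iff_inter_open]
  intro V hV hVne
  set U : Set M := Subtype.val '' (φ ⁻¹' V) with hU
  have hUo : IsOpen U := ho.isOpenMap_subtype_val _ (hV.preimage φ.continuous)
  have hUne : U.Nonempty := by
    obtain ⟨v, hv⟩ := hVne
    exact ⟨_, φ.symm v, by simpa using hv, rfl⟩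
  obtain ⟨k, hk | hk⟩ := hf _ (φ.symm y).2 U hUo hUne
  · refine ⟨_, ?_, ⟨(k : ℤ), rfl⟩⟩
    show ((laste e φ f hfe) ^ ((k : ℕ) : ℤ)) y ∈ V
    rw [zpow_natCast]
    obtain ⟨x, hx, hx'⟩ := hk
    rw [← laste_iter e φ f hfe k y] at hx'
    have := Subtype.ext hx'
    rw [this] at hx
    simpa using hx
  · refine ⟨_, ?_, ⟨-(k : ℤ), rfl⟩⟩
    show ((laste e φ f hfe) ^ (-((k : ℕ) : ℤ))) y ∈ V
    rw [zpow_neg, zpow_natCast, ← inv_pow, hinv]
    obtain ⟨x, hx, hx'⟩ := hk
    rw [← laste_iter e φ f.symm hfe' k y] at hx'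
    have := Subtype.ext hx'
    rw [this] at hx
    simpa using hx

end

/-- The even dimensional case from the modules. -/
theorem even_dims (hS : Scheme_Stmt)
    (hNhd : ∀ {X Y B M : Type} [NormedAddCommGroup X] [NormedSpace ℝ X] [MetricSpace Y]
      [MetricSpace B] [MetricSpace M] [CompactSpace B] [CompactSpace M] (b : Base X Y B) (e : M),
      Nhd_Stmt b M e)
    (hPA : ∀ {X Y B M : Type} [NormedAddCommGroup X] [NormedSpace ℝ X] [MetricSpace Y]
      [MetricSpace B] [MetricSpace M] [FiniteDimensional ℝ X] [CompactSpace B] [CompactSpace M]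
      (b : Base X Y B) (e : M), PropA (Stages b M e))
    (hPB : ∀ {X Y B M : Type} [NormedAddCommGroup X] [NormedSpace ℝ X] [MetricSpace Y]
      [MetricSpace B] [MetricSpace M] [CompactSpace B] [CompactSpace M] (b : Base X Y B) (e : M),
      PropB (Stages b M e) e)
    (hFr : ∀ {X Y B M : Type} [NormedAddCommGroup X] [NormedSpace ℝ X] [MetricSpace Y]
      [MetricSpace B] [MetricSpace M] [CompactSpace B] [CompactSpace M] (b : Base X Y B) (e : M),
      Frozen_Stmt b M e)
    (hSp : Space_Stmt) :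
    ∀ k : ℕ, ∃ f : EuclideanSpace ℝ (Fin (2 * k + 4)) ≃ₜ EuclideanSpace ℝ (Fin (2 * k + 4)),
      ∀ x, Dense (range fun j : ℤ => (f ^ j) x) := by
  intro k
  obtain ⟨X, Y, B, M, i1, i2, i3, i4, i5, e, b, C, i6, i7, i8, ⟨φ⟩⟩ := hSp k
  obtain ⟨f, hfe, hf⟩ := limit_on_M b e hS (hNhd b e) (hPA b e) (hPB b e) (hFr b e) C
  exact ⟨laste e φ f hfe, laste_dense e φ f hfe isOpen_ne hf⟩

end Pool.Agent.EvenHomeo
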