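import Pool.Agent.Lib_helper57.MinHomeo.Assembly
import Pool.Agent.Lib_helper57.MinHomeo.Alg
import Pool.Agent.Lib_helper24.MinHomeo.Step
import Pool.Agent.Lib_helper30.MinHomeo.Last
import Pool.Agent.Lib_helper30.MinHomeo.Path
import Pool.Agent.Lib_helper34.MinHomeo.Stab
import Pool.Agent.Lib_helper58.MinHomeo.Frozen
import Pool.Agent.Lib_helper71.MinHomeo.Transport
import Pool.Agent.Lib_helper71.MinHomeo.AQ
import Pool.Agent.Lib_helper71.MinHomeo.SphChart
import Pool.Agent.Lib_helper73.MinHomeo.Move
import Pool.Agent.Lib_helper73.MinHomeo.SphConn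
import Pool.Agent.Lib_helper73.MinHomeo.SphTrans
import Pool.Agent.Lib_helper79.MinHomeo.Curve
import Pool.Agent.Lib_helper79.MinHomeo.Hit
import Pool.Agent.Lib_helper90.MinHomeo.LemA
import Pool.Agent.Lib_helper94.MinHomeo.GP

/-!
# Homeomorphisms of odd dimensional Euclidean spaces with all full orbits dense (helper57 and
crew)
-/

namespace Pool.Agent.MinHomeo

/-- For every odd `n` at least `3` there is a homeomorphism of Euclidean `n`-space all of whose
full orbits are dense. -/
theorem oddDims :
    ∀ n : ℕ, 3 ≤ n → Odd n →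
      ∃ f : EuclideanSpace ℝ (Fin n) ≃ₜ EuclideanSpace ℝ (Fin n),
        ∀ x : EuclideanSpace ℝ (Fin n), Dense (Set.range fun k : ℤ => (f ^ k) x) := by
  intro n hn hodd
  obtain ⟨m, rfl⟩ := hodd
  exact assembly (step stab) frozen (fun C => transport C) (fun C h => move C h)
    (fun X => curve X) (fun C h => aq C h) (fun C h h' => hit C h h') (fun C h => propA C h)
    (fun C => path C) (fun X => gp X) alg (fun F => sphChart F (sphConn F) (sphTrans F)) last m
    (by omega)

end Pool.Agent.MinHomeo
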